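import Pool.Agent.Helper153.FacC
import Pool.Agent.TH915.PW.Disc

set_option autoImplicit false

/-! The fractional parts of `c √r`, `r` in an interval: few of them are near a given point. -/

namespace Pool.Agent.K7.H55.AN

open Finset
open Pool.Agent.H469R2.NK (e norm_e e_add)
open Pool.Agent.Helper153.Vdc (ee dd Cond vdc)

/-- the second difference of the square root -/
theorem sqrt_dd {X : ℝ} (hX : 2 < X) :
    (√(X - 1) - √(X - 2)) - (√X - √(X - 1)) =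
      2 / ((√(X - 2) + √(X - 1)) * (√(X - 1) + √X) * (√(X - 2) + √X)) := by
  obtain ⟨A, hA⟩ : ∃ A, A = √(X - 2) := ⟨_, rfl⟩
  obtain ⟨B, hB⟩ : ∃ B, B = √(X - 1) := ⟨_, rfl⟩
  obtain ⟨C, hC⟩ : ∃ C, C = √X := ⟨_, rfl⟩
  rw [← hA, ← hB, ← hC]
  have hA2 : A * A = X - 2 := by rw [hA]; exact Real.mul_self_sqrt (by linarith)
  have hB2 : B * B = X - 1 := by rw [hB]; exact Real.mul_self_sqrt (by linarith)
  have hC2 : C * C = X := by rw [hC]; exact Real.mul_self_sqrt (by linarith)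
  have hA0 : 0 < A := by rw [hA]; exact Real.sqrt_pos.2 (by linarith)
  have hB0 : 0 < B := by rw [hB]; exact Real.sqrt_pos.2 (by linarith)
  have hC0 : 0 < C := by rw [hC]; exact Real.sqrt_pos.2 (by linarith)
  rw [eq_div_iff (by positivity)]
  have h1 : (B - A) * (A + B) = 1 := by linear_combination hB2 - hA2
  have h2 : (C - B) * (B + C) = 1 := by linear_combination hC2 - hB2
  have h3 : (C - A) * (A + C) = 2 := by linear_combination hC2 - hA2
  calc (B - A - (C - B)) * ((A + B) * (B + C) * (A + C))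
      = (((B - A) * (A + B)) * (B + C) - ((C - B) * (B + C)) * (A + B)) * (A + C) := by ring
    _ = (C - A) * (A + C) := by rw [h1, h2]; ring
    _ = 2 := h3

/-- its size -/
theorem sqrt_dd_bounds {X R0 R1 : ℝ} (h0 : 0 < R0) (hX : R0 ≤ X - 2) (hX1 : X ≤ R1) :
    1 / (4 * (R1 * √R1)) ≤ (√(X - 1) - √(X - 2)) - (√X - √(X - 1)) ∧
    (√(X - 1) - √(X - 2)) - (√X - √(X - 1)) ≤ 1 / (4 * (R0 * √R0)) := by
  rw [sqrt_dd (by linarith)]
  have hr0 : 0 < √R0 := Real.sqrt_pos.2 h0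
  have hr1 : 0 < √R1 := Real.sqrt_pos.2 (by linarith)
  have e0 : √R0 * √R0 = R0 := Real.mul_self_sqrt h0.le
  have e1 : √R1 * √R1 = R1 := Real.mul_self_sqrt (by linarith)
  have a1 : √R0 ≤ √(X - 2) := Real.sqrt_le_sqrt hX
  have a2 : √R0 ≤ √(X - 1) := Real.sqrt_le_sqrt (by linarith)
  have a3 : √R0 ≤ √X := Real.sqrt_le_sqrt (by linarith)
  have b1 : √(X - 2) ≤ √R1 := Real.sqrt_le_sqrt (by linarith)
  have b2 : √(X - 1) ≤ √R1 := Real.sqrt_le_sqrt (by linarith)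
  have b3 : √X ≤ √R1 := Real.sqrt_le_sqrt hX1
  have p1 : 0 < √(X - 2) := lt_of_lt_of_le hr0 a1
  have p2 : 0 < √(X - 1) := lt_of_lt_of_le hr0 a2
  have p3 : 0 < √X := lt_of_lt_of_le hr0 a3
  have hR1p : 0 < R1 := by linarith
  constructor
  · rw [div_le_div_iff₀ (by positivity) (by positivity)]
    have : (√(X - 2) + √(X - 1)) * (√(X - 1) + √X) * (√(X - 2) + √X) ≤
        (√R1 + √R1) * (√R1 + √R1) * (√R1 + √R1) := by
      gcongr
    have e : (√R1 + √R1) * (√R1 + √R1) * (√R1 + √R1) = 8 * (R1 * √R1) := by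
      calc (√R1 + √R1) * (√R1 + √R1) * (√R1 + √R1) = 8 * ((√R1 * √R1) * √R1) := by ring
        _ = _ := by rw [e1]
    linarith
  · rw [div_le_div_iff₀ (by positivity) (by positivity)]
    have : (√R0 + √R0) * (√R0 + √R0) * (√R0 + √R0) ≤
        (√(X - 2) + √(X - 1)) * (√(X - 1) + √X) * (√(X - 2) + √X) := by
      gcongr
    have e : (√R0 + √R0) * (√R0 + √R0) * (√R0 + √R0) = 8 * (R0 * √R0) := by
      calc (√R0 + √R0) * (√R0 + √R0) * (√R0 + √R0) = 8 * ((√R0 * √R0) * √R0) := by ring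
        _ = _ := by rw [e0]
    linarith

/-- it decreases -/
theorem sqrt_dd_anti {X : ℝ} (hX : 3 < X) :
    (√(X - 1) - √(X - 2)) - (√X - √(X - 1)) ≤
      (√(X - 1 - 1) - √(X - 1 - 2)) - (√(X - 1) - √(X - 1 - 1)) := by
  rw [sqrt_dd (by linarith), sqrt_dd (X := X - 1) (by linarith)]
  have hA0 : 0 < √(X - 1 - 2) := Real.sqrt_pos.2 (by linarith)
  have hB0 : 0 < √(X - 1 - 1) := Real.sqrt_pos.2 (by linarith)
  have hC0 : 0 < √(X - 1) := Real.sqrt_pos.2 (by linarith)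
  have a1 : √(X - 1 - 2) ≤ √(X - 2) := Real.sqrt_le_sqrt (by linarith)
  have a2 : √(X - 1 - 1) ≤ √(X - 1) := Real.sqrt_le_sqrt (by linarith)
  have a3 : √(X - 1) ≤ √X := Real.sqrt_le_sqrt (by linarith)
  apply div_le_div_of_nonneg_left (by norm_num) (by positivity)
  gcongr

theorem cond_sqrt {c δ : ℝ} (hc : 0 < c) {R0 R1 : ℕ} (hδ : 0 < δ) (hδ1 : δ ≤ 1) (h0 : 0 < R0)
    (h01 : δ * R1 ≤ R0) :
    Cond 2 (fun n => -(c * √((R1 : ℝ) - n))) (R1 - R0) (c / (4 * (R1 * √(R1 : ℝ)))) (1 / δ ^ 2) := by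
  have hR0 : (0 : ℝ) < R0 := by exact_mod_cast h0
  have key : ∀ n : ℕ, dd 2 (fun n => -(c * √((R1 : ℝ) - n))) n =
      c * ((√(((R1 : ℝ) - n) - 1) - √(((R1 : ℝ) - n) - 2)) - (√((R1 : ℝ) - n) - √(((R1 : ℝ) - n) - 1))) := by
    intro n
    simp only [dd]
    push_cast
    have e1 : (R1 : ℝ) - (n + 1) = ((R1 : ℝ) - n) - 1 := by ring
    have e2 : (R1 : ℝ) - (n + 1 + 1) = ((R1 : ℝ) - n) - 2 := by ring
    rw [e1, e2]
    ring
  constructor
  · intro n hn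
    have hn1 : (R0 : ℝ) + (n + 2) ≤ R1 := by
      have : R0 + (n + 2) ≤ R1 := by omega
      exact_mod_cast this
    have hn0 : (0 : ℝ) ≤ n := Nat.cast_nonneg n
    have hR1 : (0 : ℝ) < R1 := by linarith
    obtain ⟨h1, h2⟩ := sqrt_dd_bounds (X := (R1 : ℝ) - n) (R1 := R1) hR0 (by linarith) (by linarith)
    rw [key]
    constructor
    · calc c / (4 * (R1 * √(R1 : ℝ))) = c * (1 / (4 * (R1 * √(R1 : ℝ)))) := by ring
        _ ≤ _ := mul_le_mul_of_nonneg_left h1 hc.le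
    · refine (mul_le_mul_of_nonneg_left h2 hc.le).trans ?_
      have hs0 : 0 < √(R0 : ℝ) := Real.sqrt_pos.2 hR0
      have hs1 : 0 < √(R1 : ℝ) := Real.sqrt_pos.2 hR1
      have h3 : δ * √(R1 : ℝ) ≤ √(R0 : ℝ) := by
        apply Real.le_sqrt_of_sq_le
        rw [mul_pow, Real.sq_sqrt hR1.le]
        nlinarith
      have h4 : (δ * R1) * (δ * √(R1 : ℝ)) ≤ R0 * √(R0 : ℝ) :=
        mul_le_mul h01 h3 (by positivity) hR0.le
      have e : 1 / δ ^ 2 * (c / (4 * (R1 * √(R1 : ℝ)))) = c * (1 / (4 * ((δ * R1) * (δ * √(R1 : ℝ))))) := by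
        field_simp
      rw [e]
      refine mul_le_mul_of_nonneg_left ?_ hc.le
      apply one_div_le_one_div_of_le (by positivity)
      linarith
  · intro n hn
    have hn1 : (R0 : ℝ) + (n + 3) ≤ R1 := by
      have : R0 + (n + 3) ≤ R1 := by omega
      exact_mod_cast this
    have e3 : dd 3 (fun n => -(c * √((R1 : ℝ) - n))) n = dd 2 (fun n => -(c * √((R1 : ℝ) - n))) (n + 1) -
        dd 2 (fun n => -(c * √((R1 : ℝ) - n))) n := by
      simp only [dd]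
    rw [e3, key, key]
    push_cast
    have e1 : (R1 : ℝ) - (n + 1) = ((R1 : ℝ) - n) - 1 := by ring
    rw [e1]
    have h1 := sqrt_dd_anti (X := (R1 : ℝ) - n) (by linarith)
    have := mul_le_mul_of_nonneg_left h1 hc.le
    linarith

theorem e_eq_ee (x : ℝ) : e x = ee x := by
  unfold e ee
  congr 1
  push_cast
  ring

open Classical in
/-- **few square roots near odd integers**: the proportion of the `r` with `(2 m + 1) √r` within `ε`
of an odd integer -/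
theorem few_near {ε δ : ℝ} (hε : 0 < ε) (hε1 : ε ≤ 1) (hδ : 0 < δ) (hδ1 : δ ≤ 1) :
    ∃ N : ℕ, ∀ m R0 : ℕ, N ≤ m → 0 < R0 → δ * (2 * m : ℕ) ≤ R0 → R0 ≤ 2 * m →
      (((range (2 * m - R0)).filter fun i : ℕ => ∃ D : ℤ,
        |(2 * (D : ℝ) + 1) - √(((2 * m : ℕ) : ℝ) - (i : ℝ)) * (2 * m + 1)| < ε).card : ℝ) ≤ 4 * ε * m := by
  obtain ⟨K, hK⟩ := exists_nat_gt (28 / ε)
  have hKR : (0 : ℝ) < K := lt_trans (by positivity) hK
  have hK1 : 1 ≤ K := by
    have : 0 < K := by exact_mod_cast hKR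
    omega
  obtain ⟨σ, hσ, C, hC, hV⟩ := vdc 2 le_rfl (1 / δ ^ 2) (by
    rw [le_div_iff₀ (by positivity), one_mul]
    exact pow_le_one₀ hδ.le hδ1) (1 / 4) (by norm_num) (by norm_num)
  -- large `m`
  have hlim : Filter.Tendsto (fun x : ℝ => x ^ (-σ)) Filter.atTop (nhds 0) :=
    tendsto_rpow_neg_atTop hσ
  obtain ⟨x0, hx0⟩ := Filter.eventually_atTop.1 (hlim.eventually_lt_const
    (show (0 : ℝ) < ε / (4 * (K : ℝ) ^ 3 * C) by positivity))
  obtain ⟨N, hN⟩ := exists_nat_gt (max (max x0 8) (((K : ℝ) ^ 3) ^ 4))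
  refine ⟨N, fun m R0 hm hR0 hδR hR => ?_⟩
  have hmN : (N : ℝ) ≤ m := by exact_mod_cast hm
  have hNx0 : x0 < N := lt_of_le_of_lt ((le_max_left _ _).trans (le_max_left _ _)) hN
  have hN8 : (8 : ℝ) < N := lt_of_le_of_lt ((le_max_right _ _).trans (le_max_left _ _)) hN
  have hNK : ((K : ℝ) ^ 3) ^ 4 < N := lt_of_le_of_lt (le_max_right _ _) hN
  obtain ⟨R1, hR1⟩ : ∃ R1 : ℕ, R1 = 2 * m := ⟨_, rfl⟩
  have hR1R : (R1 : ℝ) = 2 * m := by rw [hR1]; push_cast; ring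
  have hR10 : (0 : ℝ) < R1 := by rw [hR1R]; linarith
  have hE : ∀ h : ℕ, 1 ≤ h → h < K ^ 3 →
      ‖∑ i ∈ range (R1 - R0), e (h * (-(√((R1 : ℝ) - i) * (2 * m + 1)) / 2 + (1 / 2 + ε / 2)))‖ ≤
        C * (R1 : ℝ) ^ (1 - σ) := by
    intro h h1 h2
    have hhR : (1 : ℝ) ≤ h := by exact_mod_cast h1
    have hhK : (h : ℝ) ≤ (K : ℝ) ^ 3 := by exact_mod_cast h2.le
    have hc : 0 < (h : ℝ) * (2 * m + 1) / 2 := by positivity
    have hcond := cond_sqrt (c := (h : ℝ) * (2 * m + 1) / 2) hc (R0 := R0) (R1 := R1) hδ hδ1 hR0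
      (by rw [hR1]; exact hδR)
    have hs : 0 < √(R1 : ℝ) := Real.sqrt_pos.2 hR10
    have hss : √(R1 : ℝ) = (R1 : ℝ) ^ ((1 : ℝ) / 2) := Real.sqrt_eq_rpow _
    have hv := hV R1 (R1 - R0) _ _ (by have : (0 : ℕ) < R1 := by exact_mod_cast hR10
                                       omega) (Nat.sub_le _ _) hcond ?_ ?_
    · refine le_trans (le_of_eq ?_) hv
      have e1 : ∀ i ∈ range (R1 - R0), e (h * (-(√((R1 : ℝ) - i) * (2 * m + 1)) / 2 + (1 / 2 + ε / 2))) =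
          e (h * (1 / 2 + ε / 2)) * ee (-((h : ℝ) * (2 * m + 1) / 2 * √((R1 : ℝ) - i))) := by
        intro i _
        rw [← e_eq_ee, ← e_add]
        congr 1
        ring
      rw [sum_congr rfl e1, ← mul_sum, norm_mul, norm_e, one_mul]
    · -- lower bound for `lam`
      have h3 : (R1 : ℝ) ^ (-2 + (1 / 4 : ℝ)) ≤ 1 / (8 * √(R1 : ℝ)) := by
        rw [le_div_iff₀ (by positivity), hss]
        have e : (R1 : ℝ) ^ (-2 + (1 / 4 : ℝ)) * (8 * (R1 : ℝ) ^ ((1 : ℝ) / 2)) =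
            8 * (R1 : ℝ) ^ (-(5 / 4 : ℝ)) := by
          have : (R1 : ℝ) ^ (-(5 / 4 : ℝ)) = (R1 : ℝ) ^ (-2 + (1 / 4 : ℝ)) * (R1 : ℝ) ^ ((1 : ℝ) / 2) := by
            rw [← Real.rpow_add hR10]; norm_num
          rw [this]; ring
        rw [e]
        have h4 : (R1 : ℝ) ^ (-(5 / 4 : ℝ)) ≤ (R1 : ℝ) ^ (-(1 : ℝ)) :=
          Real.rpow_le_rpow_of_exponent_le (by linarith) (by norm_num)
        rw [Real.rpow_neg_one] at h4
        have h5 : (R1 : ℝ)⁻¹ ≤ 1 / 8 := by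
          rw [inv_le_comm₀ hR10 (by norm_num)]
          linarith
        linarith
      refine h3.trans ?_
      rw [div_le_div_iff₀ (by positivity) (by positivity)]
      have h6 : (R1 : ℝ) * 1 ≤ (2 * m + 1) * h := by
        rw [hR1R]
        exact mul_le_mul (by linarith) hhR (by norm_num) (by positivity)
      have := mul_le_mul_of_nonneg_right h6 hs.le
      nlinarith
    · -- upper bound
      have h3 : h / (4 * √(R1 : ℝ)) * (2 : ℝ) ≤ (R1 : ℝ) ^ (-(1 / 4 : ℝ)) := by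
        have h4 : (h : ℝ) ≤ (R1 : ℝ) ^ ((1 : ℝ) / 4) := by
          have h5 : ((h : ℝ) ^ (4 : ℕ)) ≤ R1 := by
            calc (h : ℝ) ^ (4 : ℕ) ≤ ((K : ℝ) ^ 3) ^ 4 := pow_le_pow_left₀ (by linarith) hhK 4
              _ ≤ R1 := by linarith
          calc (h : ℝ) = ((h : ℝ) ^ (4 : ℕ)) ^ ((1 : ℝ) / 4) := by
                rw [← Real.rpow_natCast, ← Real.rpow_mul (by linarith)]; norm_num
            _ ≤ (R1 : ℝ) ^ ((1 : ℝ) / 4) := Real.rpow_le_rpow (by positivity) h5 (by norm_num)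
        have e : (R1 : ℝ) ^ (-(1 / 4 : ℝ)) * √(R1 : ℝ) = (R1 : ℝ) ^ ((1 : ℝ) / 4) := by
          rw [hss, ← Real.rpow_add hR10]; norm_num
        rw [div_mul_eq_mul_div, div_le_iff₀ (by positivity)]
        nlinarith
      refine le_trans ?_ h3
      rw [div_le_iff₀ (by positivity)]
      have e2 : h / (4 * √(R1 : ℝ)) * 2 * (4 * (R1 * √(R1 : ℝ))) = h * (2 * R1) := by
        field_simp
      rw [e2, hR1R]
      nlinarith
  have hD := Pool.Agent.TH915.PW.disc (range (R1 - R0))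
    (fun i => -(√((R1 : ℝ) - i) * (2 * m + 1)) / 2 + (1 / 2 + ε / 2)) K hK1 (C * (R1 : ℝ) ^ (1 - σ))
    (by positivity) hE 0 ε le_rfl hε.le hε1
  have hsub : ((range (2 * m - R0)).filter fun i : ℕ => ∃ D : ℤ,
        |(2 * (D : ℝ) + 1) - √(((2 * m : ℕ) : ℝ) - (i : ℝ)) * (2 * m + 1)| < ε) ⊆
      (range (R1 - R0)).filter (fun i : ℕ => (0 : ℝ) ≤ Int.fract (-(√((R1 : ℝ) - i) * (2 * m + 1)) / 2 +
        (1 / 2 + ε / 2)) ∧ Int.fract (-(√((R1 : ℝ) - i) * (2 * m + 1)) / 2 + (1 / 2 + ε / 2)) < ε) := by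
    intro i hi
    rw [mem_filter] at hi ⊢
    obtain ⟨h1, D, h2⟩ := hi
    rw [hR1]
    refine ⟨h1, Int.fract_nonneg _, ?_⟩
    obtain ⟨h3, h4⟩ := abs_lt.1 h2
    have e1 : Int.fract (-(√(((2 * m : ℕ) : ℝ) - i) * (2 * m + 1)) / 2 + (1 / 2 + ε / 2)) =
        ((2 * (D : ℝ) + 1) - √(((2 * m : ℕ) : ℝ) - i) * (2 * m + 1)) / 2 + ε / 2 := by
      rw [Int.fract_eq_iff]
      refine ⟨by linarith, by linarith, -D, ?_⟩
      push_cast
      ring
    rw [e1]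
    linarith
  have hcard : ((range (R1 - R0)).card : ℝ) ≤ R1 := by
    rw [card_range]
    exact_mod_cast Nat.sub_le _ _
  have h5 := (abs_le.1 hD).2
  have h6 := Nat.cast_le (α := ℝ).2 (card_le_card hsub)
  refine h6.trans ?_
  have h7 : 14 * ((range (R1 - R0)).card : ℝ) / K ≤ ε / 2 * R1 := by
    rw [div_le_iff₀ hKR]
    have h8 : 28 ≤ ε * K := by
      rw [div_lt_iff₀ hε] at hK
      linarith
    nlinarith
  have h8 : 2 * ((K : ℝ) ^ 3 * (C * (R1 : ℝ) ^ (1 - σ))) ≤ ε / 2 * R1 := by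
    have h9 := hx0 (R1 : ℝ) (by linarith)
    rw [lt_div_iff₀ (by positivity)] at h9
    have e : (R1 : ℝ) ^ (1 - σ) = R1 * (R1 : ℝ) ^ (-σ) := by
      rw [sub_eq_add_neg, Real.rpow_add hR10, Real.rpow_one]
    rw [e]
    have := mul_le_mul_of_nonneg_left h9.le hR10.le
    nlinarith
  have h9 : ((range (R1 - R0)).card : ℝ) * (ε - 0) ≤ R1 * ε := by
    rw [sub_zero]
    exact mul_le_mul_of_nonneg_right hcard hε.le
  have q1 : ε / 2 * (R1 : ℝ) = ε * m := by rw [hR1R]; ring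
  have q2 : (R1 : ℝ) * ε = 2 * (ε * m) := by rw [hR1R]; ring
  rw [q1] at h7 h8
  rw [q2] at h9
  linarith

end Pool.Agent.K7.H55.AN
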