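import Pool.Agent.K7.H55.AN.Tog
import Pool.Agent.K7.H55.AN.Vdc

set_option autoImplicit false

/-! For every multiplicity `m` all but few numbers of points are settled in every degree. -/

namespace Pool.Agent.K7.H55.AN

open Finset Pool.Agent.H932R2 Pool.Agent.H932R3 Pool.Agent.TH183.QS

universe u

/-- many points compared with the multiplicity -/
theorem all_of_large {r m : ℕ} (h1 : 144 ≤ r) (h2 : 2 * m ≤ r) : All.{u} r m := by
  intro L _ _
  have hrR : (144 : ℝ) ≤ r := by exact_mod_cast h1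
  have hmR : 2 * (m : ℝ) ≤ r := by exact_mod_cast h2
  have hs12 : (12 : ℝ) ≤ √(r : ℝ) := by
    apply Real.le_sqrt_of_sq_le
    norm_num
    exact_mod_cast h1
  have hss : √(r : ℝ) * √(r : ℝ) = r := Real.mul_self_sqrt (by linarith)
  obtain ⟨F, hF, hF'⟩ := coll_start (r := r) (m := m) (by omega) (Or.inl (by nlinarith)) L
  exact ⟨F, hF, fun c a hc d => hF' c a hc d⟩

/-- **For every multiplicity all but few numbers of points.** -/
theorem few {ε : ℝ} (hε : 0 < ε) : ∃ M0 : ℕ, ∀ m : ℕ, M0 ≤ m →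
    {r : ℕ | 10 ≤ r ∧ ¬ All.{u} r m}.Finite ∧ (({r : ℕ | 10 ≤ r ∧ ¬ All.{u} r m}.ncard : ℕ) : ℝ) ≤ ε * m := by
  classical
  obtain ⟨ε1, hε1⟩ : ∃ ε1 : ℝ, ε1 = min ε 1 / 16 := ⟨_, rfl⟩
  have hm1 : 0 < min ε 1 := lt_min hε one_pos
  have hm2 : min ε 1 ≤ 1 := min_le_right _ _
  have hm3 : min ε 1 ≤ ε := min_le_left _ _
  have hε10 : 0 < ε1 := by rw [hε1]; positivity
  have hε11 : ε1 ≤ 1 := by rw [hε1]; linarith
  obtain ⟨N0, hN0, hlarge⟩ := coll_large.{u} hε10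
  obtain ⟨N1, hN1⟩ := few_near hε10 hε11 hε10 hε11
  obtain ⟨N2, hN2⟩ := exists_nat_gt ((N0 + 4) / ε1)
  refine ⟨N1 + N2 + 144, fun m hm => ?_⟩
  have hmN2 : (N2 : ℝ) ≤ m := by exact_mod_cast (by omega : N2 ≤ m)
  have hm0 : (0 : ℝ) ≤ m := Nat.cast_nonneg m
  have hm144 : (144 : ℝ) ≤ m := by exact_mod_cast (by omega : 144 ≤ m)
  have hN0m : ((N0 : ℝ) + 4) ≤ ε1 * m := by
    rw [div_lt_iff₀ hε10] at hN2
    have := mul_le_mul_of_nonneg_right hmN2 hε10.le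
    linarith
  obtain ⟨R0, hR0⟩ : ∃ R0 : ℕ, R0 = ⌈2 * ε1 * m⌉₊ := ⟨_, rfl⟩
  have hR01 : 2 * ε1 * m ≤ R0 := by rw [hR0]; exact Nat.le_ceil _
  have hR02 : (R0 : ℝ) < 2 * ε1 * m + 1 := by rw [hR0]; exact Nat.ceil_lt_add_one (by positivity)
  have hR0pos : 0 < R0 := by
    have : (0 : ℝ) < R0 := by
      have : 0 < 2 * ε1 * m := by positivity
      linarith
    exact_mod_cast this
  have hε16 : ε1 ≤ 1 / 16 := by rw [hε1]; linarith
  have hR0m : R0 ≤ 2 * m := by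
    have : (R0 : ℝ) ≤ ((2 * m : ℕ) : ℝ) := by
      push_cast
      nlinarith
    exact_mod_cast this
  have hnear := hN1 m R0 (by omega) hR0pos (by push_cast; linarith) hR0m
  obtain ⟨W, hW⟩ : ∃ W : Finset ℕ, W = (range (2 * m - R0)).filter fun i : ℕ => ∃ D : ℤ,
        |(2 * (D : ℝ) + 1) - √(((2 * m : ℕ) : ℝ) - (i : ℝ)) * (2 * m + 1)| < ε1 := ⟨_, rfl⟩
  rw [← hW] at hnear
  obtain ⟨T, hT⟩ : ∃ T : Finset ℕ, T = range (N0 + R0 + 1) ∪ W.image fun i => 2 * m - i := ⟨_, rfl⟩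
  have hsub : {r : ℕ | 10 ≤ r ∧ ¬ All.{u} r m} ⊆ (T : Set ℕ) := by
    rintro r ⟨hr10, hr⟩
    by_contra hrT
    rw [hT, mem_coe, mem_union, not_or, mem_range, not_lt] at hrT
    obtain ⟨hr1, hr2⟩ := hrT
    apply hr
    rcases Nat.lt_or_ge r (2 * m) with hlt | hge
    · intro L _ _
      obtain ⟨F, hF, hF'⟩ := hlarge r (by omega) m L
      refine ⟨F, hF, fun c a hc d => hF' c a hc d ?_⟩
      by_contra hcon
      rw [not_le] at hcon
      apply hr2
      rw [mem_image]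
      refine ⟨2 * m - r, ?_, by omega⟩
      rw [hW, mem_filter, mem_range]
      refine ⟨by omega, (d : ℤ) + 1, ?_⟩
      have e : ((2 * m : ℕ) : ℝ) - ((2 * m - r : ℕ) : ℝ) = r := by
        rw [Nat.cast_sub hlt.le]
        ring
      rw [e]
      have e2 : 2 * ((((d : ℤ) + 1 : ℤ)) : ℝ) + 1 - √(r : ℝ) * (2 * m + 1) =
          2 * (d : ℝ) + 3 - √(r : ℝ) - 2 * (√(r : ℝ) * m) := by
        push_cast
        ring
      rw [e2]
      exact hcon
    · exact all_of_large (by omega) hge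
  refine ⟨(finite_toSet T).subset hsub, ?_⟩
  have h1 := Set.ncard_le_ncard hsub (finite_toSet T)
  rw [Set.ncard_coe_finset] at h1
  have h2 : T.card ≤ (N0 + R0 + 1) + W.card := by
    rw [hT]
    refine (card_union_le _ _).trans ?_
    rw [card_range]
    exact Nat.add_le_add_left card_image_le _
  have h3 : ((({r : ℕ | 10 ≤ r ∧ ¬ All.{u} r m}.ncard : ℕ)) : ℝ) ≤ (N0 + R0 + 1 : ℕ) + (W.card : ℝ) := by
    exact_mod_cast h1.trans h2
  refine h3.trans ?_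
  push_cast
  have h4 : min ε 1 = 16 * ε1 := by rw [hε1]; ring
  have h5 : 16 * ε1 * m ≤ ε * m := by
    rw [← h4]
    exact mul_le_mul_of_nonneg_right hm3 hm0
  have h6 : 0 ≤ ε1 * m := by positivity
  linarith

end Pool.Agent.K7.H55.AN
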