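import Pool.Agent.TH183.QS.Fin

set_option autoImplicit false

/-! A rate for the windows of large numbers `r` of points: `|2 d + 3 - √r (2 m + 1)| ≥ 20 / P` for
`√r ≥ 40 P ^ 3` (the proofs follow `Pool.Agent.TH183.QS.Large`, with explicit thresholds). -/

namespace Pool.Agent.K7.H55.AN

open Finset Pool.Agent.TH176.Nag Pool.Agent.TH603.Sur Pool.Agent.TH183.QC Pool.Agent.TH183.QS
open Pool.Agent.H932R2 Pool.Agent.H932R3
open Pool.Agent.TH183.QN (TT)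
open Pool.Agent.TH885.NW (second_const)
open Pool.Agent.TH641.NW (U ell Lam NN up_top U_empty exists_tau ell_row row_low_rot row_up_rot K_bounds)

universe u

/-- the choice of the slope -/
theorem exists_param' (P : ℕ) (hP : 2 ≤ P) (n : ℕ) (hsn : 6 * (P : ℝ) ^ 2 ≤ √(n : ℝ)) (hsq : ¬ IsSquare n) :
    ∃ (K δ : ℝ) (y : ℕ), K = 9 * P - 1 + 1 / P + δ ∧ 0 ≤ δ ∧ δ * P ^ 2 ≤ 1 ∧
      (K ^ 2 / 9 + y) ^ 2 = n * (K ^ 2 / 9) ∧ Irrational K := by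
  have hP' : (2 : ℝ) ≤ P := by exact_mod_cast hP
  have hP0 : (0 : ℝ) < P := by linarith
  obtain ⟨s, hs⟩ : ∃ s : ℝ, s = √(n : ℝ) := ⟨_, rfl⟩
  have hs2 : s ^ 2 = n := by rw [hs]; exact Real.sq_sqrt (Nat.cast_nonneg n)
  rw [← hs] at hsn
  obtain ⟨K0, hK0⟩ : ∃ K0 : ℝ, K0 = 9 * P - 1 + 1 / P := ⟨_, rfl⟩
  have hPi : 0 < 1 / (P : ℝ) := by positivity
  have hPi2 : 1 / (P : ℝ) ≤ 1 / 2 := one_div_le_one_div_of_le (by norm_num) hP'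
  have hPP : 0 < 1 / (P : ℝ) ^ 2 := by positivity
  have hPP2 : 1 / (P : ℝ) ^ 2 ≤ 1 / 4 := by
    apply one_div_le_one_div_of_le (by norm_num)
    nlinarith
  have hK0pos : 0 < K0 := by rw [hK0]; linarith
  have hK1 : K0 + 1 / (P : ℝ) ^ 2 ≤ 9 * P := by rw [hK0]; linarith
  obtain ⟨g, hg⟩ : ∃ g : ℝ → ℝ, g = fun K => s * K / 3 - K ^ 2 / 9 := ⟨_, rfl⟩
  have hgc : Continuous g := by
    rw [hg]
    fun_prop
  have hP2 : (0 : ℝ) < P ^ 2 := by positivity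
  have hg0 : 0 ≤ g K0 := by
    rw [hg]
    simp only
    have h1 : K0 / 3 ≤ s := by
      have h2 : K0 ≤ 9 * P := by linarith
      have h3 : (P : ℝ) ≤ P ^ 2 := by nlinarith
      nlinarith
    have : s * K0 / 3 - K0 ^ 2 / 9 = K0 / 3 * (s - K0 / 3) := by ring
    rw [this]
    exact mul_nonneg (by positivity) (by linarith)
  have hstep : g K0 + 1 ≤ g (K0 + 1 / (P : ℝ) ^ 2) := by
    rw [hg]
    simp only
    obtain ⟨u, hu⟩ : ∃ u : ℝ, u = 1 / (P : ℝ) ^ 2 := ⟨_, rfl⟩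
    rw [← hu] at hK1 hPP hPP2 ⊢
    have hu1 : u * (P : ℝ) ^ 2 = 1 := by rw [hu]; field_simp
    have h1 : 6 ≤ s * u := by
      calc (6 : ℝ) = (6 * (P : ℝ) ^ 2) * u := by linear_combination (-6) * hu1
        _ ≤ s * u := mul_le_mul_of_nonneg_right hsn hPP.le
    have h2 : (K0 + u) ^ 2 - K0 ^ 2 ≤ 9 := by
      have h3 : (K0 + u) ^ 2 - K0 ^ 2 = u * (K0 + (K0 + u)) := by ring
      rw [h3]
      have h4 : u * (K0 + (K0 + u)) ≤ u * (18 * P) :=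
        mul_le_mul_of_nonneg_left (by linarith) hPP.le
      have h5 : u * (18 * (P : ℝ)) ≤ u * (9 * P ^ 2) := by
        apply mul_le_mul_of_nonneg_left _ hPP.le
        nlinarith
      have h6 : u * (9 * (P : ℝ) ^ 2) = 9 := by linear_combination 9 * hu1
      linarith
    have h5 : s * (K0 + u) / 3 = s * K0 / 3 + s * u / 3 := by ring
    rw [h5]
    linarith
  have hy1 : g K0 ≤ (⌈g K0⌉₊ : ℝ) := Nat.le_ceil _
  have hy2 : (⌈g K0⌉₊ : ℝ) ≤ g (K0 + 1 / (P : ℝ) ^ 2) :=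
    (Nat.ceil_lt_add_one hg0).le.trans hstep
  obtain ⟨K, ⟨hKa, hKb⟩, hKg⟩ := intermediate_value_Icc
    (by linarith : K0 ≤ K0 + 1 / (P : ℝ) ^ 2) hgc.continuousOn ⟨hy1, hy2⟩
  have hKpos : 0 < K := lt_of_lt_of_le hK0pos hKa
  have hmain : K ^ 2 / 9 + (⌈g K0⌉₊ : ℝ) = s * K / 3 := by
    rw [← hKg, hg]
    ring
  refine ⟨K, K - K0, ⌈g K0⌉₊, ?_, by linarith, ?_, ?_, ?_⟩
  · rw [hK0]; ring
  · have : K - K0 ≤ 1 / (P : ℝ) ^ 2 := by linarith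
    calc (K - K0) * (P : ℝ) ^ 2 ≤ 1 / (P : ℝ) ^ 2 * (P : ℝ) ^ 2 :=
          mul_le_mul_of_nonneg_right this hP2.le
      _ = 1 := by field_simp
  · rw [hmain, ← hs2]
    ring
  · intro hrat
    have hirr : Irrational (√(n : ℝ)) := irrational_sqrt_natCast_iff.2 hsq
    apply hirr
    obtain ⟨q, hq⟩ := hrat
    refine ⟨3 * (q ^ 2 / 9 + (⌈g K0⌉₊ : ℚ)) / q, ?_⟩
    push_cast
    rw [hq, hmain, ← hs]
    field_simp

/-- **the first step, emptiness**, with an explicit threshold -/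
theorem firstE' (P : ℕ) (hP : 2 ≤ P) (K δ : ℝ) (hK : K = 9 * P - 1 + 1 / P + δ)
    (hδ0 : 0 ≤ δ) (hδ : δ * P ^ 2 ≤ 1) (w : ES) (key : KeyE w) (d : ℕ) (Z : ℝ)
    (hd : 3 * P * (10 * P ^ 2 + 1) ≤ d)
    (hZ : K / 3 * (d + 3 / 2) + 10 ≤ Z + K ^ 2 / 18) (h : EmpA w (Cl Z (K ^ 2 / 9))) : EmpA w (TT d) := by
  obtain ⟨hK1, hK2⟩ := K_bounds hP hK hδ0 hδ
  have hP2 : (2 : ℝ) ≤ P := by exact_mod_cast hP
  have hK0 : 0 < K := by linarith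
  have hd0 : (0 : ℝ) ≤ d := Nat.cast_nonneg d
  have hdR : 3 * (P : ℝ) * (10 * P ^ 2 + 1) ≤ d := by exact_mod_cast hd
  obtain ⟨J, hJ⟩ : ∃ J : ℕ, J = ⌊3 * (d : ℝ) / K⌋₊ := ⟨_, rfl⟩
  have hJ1 : K * J ≤ 3 * d := by
    have := Nat.floor_le (show 0 ≤ 3 * (d : ℝ) / K by positivity)
    rw [← hJ, le_div_iff₀ hK0] at this
    linarith
  have hJ2 : 3 * (d : ℝ) < K * (J + 1) := by
    have := Nat.lt_floor_add_one (3 * (d : ℝ) / K)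
    rw [← hJ, div_lt_iff₀ hK0] at this
    linarith
  have hJ3 : 10 * (P : ℝ) ^ 2 ≤ J := by
    have h1 : 9 * (P : ℝ) * (10 * P ^ 2 + 1) < 9 * P * (J + 1) := by
      have h2 : K * ((J : ℝ) + 1) ≤ 9 * P * (J + 1) :=
        mul_le_mul_of_nonneg_right hK2.le (by positivity)
      linarith
    have h3 := lt_of_mul_lt_mul_left h1 (by positivity)
    linarith
  have hν : 2 ≤ K ^ 2 / 9 := by nlinarith
  have h1 : 1 ≤ ⌊K ^ 2 / 9⌋₊ := Nat.le_floor (by push_cast; linarith)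
  have hsig : ((⌊K ^ 2 / 9⌋₊ - 1 : ℕ) : ℝ) + 1 ≤ K ^ 2 / 9 := by
    push_cast [Nat.cast_sub h1]
    have := Nat.floor_le (show 0 ≤ K ^ 2 / 9 by linarith)
    linarith
  have hsig2 : K ^ 2 / 9 - ((⌊K ^ 2 / 9⌋₊ - 1 : ℕ) : ℝ) ≤ 2 := by
    push_cast [Nat.cast_sub h1]
    have := Nat.lt_floor_add_one (K ^ 2 / 9)
    linarith
  refine EmpA_err key (by linarith) (e := 8) hsig hJ1 hJ2 (row_up_rot hP hK hδ0 hδ) (by linarith) ?_ h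
  obtain ⟨Y, hY⟩ : ∃ Y : ℝ, Y = 3 * d - K * J := ⟨_, rfl⟩
  have hY0 : 0 ≤ Y := by rw [hY]; linarith
  have hYK : Y < K := by rw [hY]; linarith
  have hσJ : ((⌊K ^ 2 / 9⌋₊ - 1 : ℕ) : ℝ) * J ≤ (K ^ 2 / 9 - 1) * J :=
    mul_le_mul_of_nonneg_right (by linarith) (Nat.cast_nonneg J)
  have e1 : K ^ 2 / 9 * J = K / 3 * d - K * Y / 9 := by rw [hY]; ring
  rw [← hY]
  have h5 : (K - Y) ^ 2 ≤ K ^ 2 := pow_le_pow_left₀ (by linarith) (by linarith) 2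
  have h6 : K ^ 2 ≤ 81 * P ^ 2 := by nlinarith
  have h7 : (P : ℝ) ≤ P ^ 2 / 2 := by nlinarith
  nlinarith

/-- independence in degree `d` -/
theorem SurA_rate {P n : ℕ} (hP2 : 2 ≤ P) (hn : 40 * (P : ℝ) ^ 3 ≤ √(n : ℝ)) (hs : ¬ IsSquare n)
    (w : SS) (key : KeyS w) (W : ℕ) (h0 : SurA w (Op (W : ℝ) (n : ℝ))) (d : ℕ)
    (hlt : ((W : ℝ) + (n : ℝ) / 2) / √(n : ℝ) + 10 / P ≤ d + 3 / 2) : SurA w (TT d) := by
  have hP' : (2 : ℝ) ≤ P := by exact_mod_cast hP2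
  have hP0 : (0 : ℝ) < P := by linarith
  obtain ⟨ε, hεdef⟩ : ∃ ε : ℝ, ε = 10 / P := ⟨_, rfl⟩
  have hε : 0 < ε := by rw [hεdef]; positivity
  have hPε : P * ε = 10 := by rw [hεdef]; field_simp
  rw [← hεdef] at hlt
  have hP3 : 6 * (P : ℝ) ^ 2 ≤ 40 * (P : ℝ) ^ 3 := by nlinarith [sq_nonneg (P : ℝ)]
  obtain ⟨K, δ, y, hK, hδ0, hδ, hy, hirr⟩ := exists_param' P hP2 n (hP3.trans hn) hs
  obtain ⟨hK1, hK2, hx⟩ := second_const hP2 hK hδ0 hδ hy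
  have hK0 : 0 < K := by linarith
  have hr0 : 0 < √(n : ℝ) := lt_of_lt_of_le (by positivity) hn
  have hn0 : (0 : ℝ) < n := Real.sqrt_pos.1 hr0
  have hrr : √(n : ℝ) * √(n : ℝ) = n := Real.mul_self_sqrt hn0.le
  have hrn : 4 * (P : ℝ) ^ 2 ≤ √(n : ℝ) * ε := by
    calc 4 * (P : ℝ) ^ 2 ≤ 40 * (P : ℝ) ^ 2 * 10 := by nlinarith [sq_nonneg (P : ℝ)]
      _ = 40 * (P : ℝ) ^ 2 * (P * ε) := by rw [hPε]
      _ = 40 * (P : ℝ) ^ 3 * ε := by ring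
      _ ≤ √(n : ℝ) * ε := mul_le_mul_of_nonneg_right hn hε.le
  obtain ⟨r, hr⟩ : ∃ r : ℝ, r = K / 3 := ⟨_, rfl⟩
  obtain ⟨ν, hν⟩ : ∃ ν : ℝ, ν = K ^ 2 / 9 := ⟨_, rfl⟩
  have hνr : ν = r ^ 2 := by rw [hν, hr]; ring
  rw [← hν] at hy hx
  rw [← hr] at hx
  have hrpos : 0 < r := by rw [hr]; positivity
  have hν0 : 0 < ν := by rw [hνr]; positivity
  have hrP : 2 * (P : ℝ) ≤ r := by rw [hr]; linarith
  have hνP : ν ≤ 9 * (P : ℝ) ^ 2 := by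
    rw [hν]
    have : K ^ 2 ≤ (9 * (P : ℝ)) ^ 2 := by gcongr
    linarith
  obtain ⟨Z, hZ⟩ : ∃ Z : ℝ, Z = ((W + (n : ℝ) / 2) + ν / 8) * (r / √(n : ℝ)) - ν / 2 := ⟨_, rfl⟩
  have h2 : SurA w (Op Z ν) := by
    refine move_S (k := 1) (y := y) (n' := n) (Z' := W) hν0 (by rw [Nat.cast_one]; exact isCoprime_one_left) one_pos ?_ ?_ h0
    · rw [Nat.cast_one, mul_one]
      exact hy.symm
    · rw [Nat.cast_one, mul_one, hx, hZ]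
      have : √(n : ℝ) * r * ((W + (n : ℝ) / 2 + ν / 8) * (r / √(n : ℝ)) - ν / 2 + ν / 2) =
          (W + (n : ℝ) / 2 + ν / 8) * r ^ 2 := by
        have h3 : r / √(n : ℝ) * √(n : ℝ) = r := div_mul_cancel₀ _ hr0.ne'
        linear_combination (W + (n : ℝ) / 2 + ν / 8) * r * h3
      rw [this, ← hνr]
      apply le_of_eq
      ring
  rw [hν] at h2
  refine firstS key P hP2 K δ hK hδ0 hδ hirr d Z ?_ h2
  have e1 : Z + K ^ 2 / 18 = r * ((W + (n : ℝ) / 2) / √(n : ℝ) + ν / 8 / √(n : ℝ)) := by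
    rw [hZ]
    have : K ^ 2 / 18 = ν / 2 := by rw [hν]; ring
    rw [this]
    ring
  have e2 : ν / 8 / √(n : ℝ) ≤ ε / 2 := by
    rw [div_le_iff₀ hr0]
    nlinarith
  rw [e1, ← hr]
  have e3 : (W + (n : ℝ) / 2) / √(n : ℝ) + ν / 8 / √(n : ℝ) ≤ d + 3 / 2 - ε / 2 := by linarith
  have e4 := mul_le_mul_of_nonneg_left e3 hrpos.le
  have e5 : 10 ≤ r * (ε / 2) := by nlinarith
  linarith

/-- emptiness in degree `d` -/
theorem EmpA_rate {P n : ℕ} (hP2 : 2 ≤ P) (hn : 40 * (P : ℝ) ^ 3 ≤ √(n : ℝ)) (hs : ¬ IsSquare n)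
    (w : ES) (key : KeyE w) (W : ℕ) (h0 : EmpA w (Cl (W : ℝ) (n : ℝ))) (d : ℕ)
    (hw : (n : ℝ) * ((n : ℝ) / 2 + 2) ≤ (W : ℝ))
    (hd : (d : ℝ) + 3 / 2 + 10 / P ≤ ((W : ℝ) + (n : ℝ) / 2) / √(n : ℝ)) : EmpA w (TT d) := by
  have hP' : (2 : ℝ) ≤ P := by exact_mod_cast hP2
  have hP0 : (0 : ℝ) < P := by linarith
  obtain ⟨ε, hεdef⟩ : ∃ ε : ℝ, ε = 10 / P := ⟨_, rfl⟩
  have hε : 0 < ε := by rw [hεdef]; positivity
  have hPε : P * ε = 10 := by rw [hεdef]; field_simp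
  have hε5 : ε ≤ 5 := by nlinarith
  rw [← hεdef] at hd
  have hP3 : 6 * (P : ℝ) ^ 2 ≤ 40 * (P : ℝ) ^ 3 := by nlinarith [sq_nonneg (P : ℝ)]
  obtain ⟨K, δ, y, hK, hδ0, hδ, hy, hirr⟩ := exists_param' P hP2 n (hP3.trans hn) hs
  obtain ⟨hK1, hK2, hx⟩ := second_const hP2 hK hδ0 hδ hy
  have hK0 : 0 < K := by linarith
  have hr0 : 0 < √(n : ℝ) := lt_of_lt_of_le (by positivity) hn
  have hn0 : (0 : ℝ) < n := Real.sqrt_pos.1 hr0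
  have hrr : √(n : ℝ) * √(n : ℝ) = n := Real.mul_self_sqrt hn0.le
  have hrn : (9 * (P : ℝ) ^ 2 / 8 + 2) * 2 ≤ √(n : ℝ) * ε := by
    calc (9 * (P : ℝ) ^ 2 / 8 + 2) * 2 ≤ 40 * (P : ℝ) ^ 2 * 10 := by nlinarith [sq_nonneg (P : ℝ)]
      _ = 40 * (P : ℝ) ^ 2 * (P * ε) := by rw [hPε]
      _ = 40 * (P : ℝ) ^ 3 * ε := by ring
      _ ≤ √(n : ℝ) * ε := mul_le_mul_of_nonneg_right hn hε.le
  obtain ⟨d0, hd0def⟩ : ∃ d0 : ℕ, d0 = 3 * P * (10 * P ^ 2 + 1) := ⟨_, rfl⟩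
  have hrd : (d0 : ℝ) + 3 / 2 + ε + 2 ≤ √(n : ℝ) := by
    refine le_trans ?_ hn
    rw [hd0def]
    push_cast
    have : (8 : ℝ) ≤ (P : ℝ) ^ 3 := by
      calc (8 : ℝ) = 2 ^ 3 := by norm_num
        _ ≤ (P : ℝ) ^ 3 := pow_le_pow_left₀ (by norm_num) hP' 3
    have h4 : 4 * (P : ℝ) ≤ (P : ℝ) ^ 3 := by nlinarith [sq_nonneg (P : ℝ)]
    nlinarith
  have hd00 : (0 : ℝ) ≤ d0 := Nat.cast_nonneg d0
  have hr2 : 2 ≤ √(n : ℝ) := by linarith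
  have hn4R : (4 : ℝ) ≤ n := by nlinarith
  obtain ⟨r, hr⟩ : ∃ r : ℝ, r = K / 3 := ⟨_, rfl⟩
  obtain ⟨ν, hν⟩ : ∃ ν : ℝ, ν = K ^ 2 / 9 := ⟨_, rfl⟩
  have hνr : ν = r ^ 2 := by rw [hν, hr]; ring
  rw [← hν] at hy hx
  rw [← hr] at hx
  have hrpos : 0 < r := by rw [hr]; positivity
  have hν0 : 0 < ν := by rw [hνr]; positivity
  have hrP : 2 * (P : ℝ) ≤ r := by rw [hr]; linarith
  have hνP : ν ≤ 9 * (P : ℝ) ^ 2 := by
    rw [hν]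
    have : K ^ 2 ≤ (9 * (P : ℝ)) ^ 2 := by gcongr
    linarith
  obtain ⟨d', hd'⟩ : ∃ d' : ℕ, d' = max d d0 := ⟨_, rfl⟩
  have hdd' : d ≤ d' := hd' ▸ le_max_left _ _
  have hd0d : d0 ≤ d' := hd' ▸ le_max_right _ _
  obtain ⟨σ, hσ⟩ : ∃ σ : ℝ, σ = (W + (n : ℝ) / 2) / √(n : ℝ) := ⟨_, rfl⟩
  have hσ1 : σ * √(n : ℝ) = W + (n : ℝ) / 2 := by rw [hσ]; exact div_mul_cancel₀ _ hr0.ne'
  have hd2 : (d' : ℝ) + 3 / 2 + ε ≤ σ := by
    rcases max_choice d d0 with h2 | h2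
    · rw [hd', h2, hσ]; exact hd
    · rw [hd', h2, hσ, le_div_iff₀ hr0]
      have h3 : ((d0 : ℝ) + 3 / 2 + ε) * √(n : ℝ) ≤ √(n : ℝ) * √(n : ℝ) :=
        mul_le_mul_of_nonneg_right (by linarith) hr0.le
      rw [hrr] at h3
      nlinarith
  obtain ⟨Z, hZ⟩ : ∃ Z : ℝ, Z = r * (σ - ε / 2) - ν / 2 := ⟨_, rfl⟩
  have hZν : Z + ν / 2 = r * (σ - ε / 2) := by rw [hZ]; ring
  obtain ⟨x, hxdef⟩ : ∃ x : ℝ, x = ν + y := ⟨_, rfl⟩
  have hx0 : 0 < x := by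
    rw [hxdef]
    have : (0 : ℝ) ≤ y := Nat.cast_nonneg y
    linarith
  have hνx : ν ≤ x := by
    rw [hxdef]
    have : (0 : ℝ) ≤ y := Nat.cast_nonneg y
    linarith
  have hxr : x = √(n : ℝ) * r := by rw [hxdef]; exact hx
  have h1 : EmpA w (Cl Z ν) := by
    refine move_E (k := 1) (y := y) (n' := n) (Z' := W) hν0 (by rw [Nat.cast_one]; exact isCoprime_one_left) one_pos ?_ ?_ ?_ ?_ ?_
    · rw [Nat.cast_one, mul_one]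
      exact hy.symm
    · linarith
    · rw [Nat.cast_one, mul_one, ← hxdef, hxr, hZν]
      have e1 : √(n : ℝ) * r * (r * (σ - ε / 2)) = ν * (σ * √(n : ℝ) - √(n : ℝ) * (ε / 2)) := by
        rw [hνr]; ring
      rw [e1, hσ1]
      have e2 : ν / 8 + 2 ≤ √(n : ℝ) * (ε / 2) := by nlinarith
      have e3 := mul_le_mul_of_nonneg_left e2 hν0.le
      nlinarith
    · intro j hj1 hj2
      rw [Nat.cast_one, mul_one, ← hxdef] at hj1 hj2 ⊢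
      obtain ⟨κ, hκ⟩ : ∃ κ : ℝ, κ = (Z - x * j + ν / 2) / x := ⟨_, rfl⟩
      have hκ1 : Z - x * j + ν / 2 = x * κ := by
        rw [hκ, mul_div_cancel₀ _ hx0.ne']
      have hsz : (n : ℝ) * (j + κ) = σ * √(n : ℝ) - √(n : ℝ) * (ε / 2) := by
        have h2 : r * (σ - ε / 2) = x * (j + κ) := by rw [← hZν]; linarith
        rw [hxr] at h2
        have h3 : r * (σ - ε / 2) = r * (√(n : ℝ) * (j + κ)) := by rw [h2]; ring
        have h4 := mul_left_cancel₀ hrpos.ne' h3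
        calc (n : ℝ) * (j + κ) = √(n : ℝ) * (√(n : ℝ) * (j + κ)) := by rw [← mul_assoc, hrr]
          _ = √(n : ℝ) * (σ - ε / 2) := by rw [← h4]
          _ = σ * √(n : ℝ) - √(n : ℝ) * (ε / 2) := by ring
      refine top_last (κ := κ) (δ := ε / 2) hn0 hν0 hx0 ?_ hκ1 ?_ ?_ ?_ ?_ ?_ hw
      · rw [hxdef]; rw [hy]; ring
      · rw [hκ]
        apply div_nonneg _ hx0.le
        linarith
      · rw [hκ, div_le_iff₀ hx0]
        linarith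
      · rw [hsz, hσ1]
        have : 0 ≤ √(n : ℝ) * (ε / 2) := by positivity
        linarith
      · rw [hsz, hσ1]
        have : 0 < √(n : ℝ) * (ε / 2) := by positivity
        linarith
      · linarith
    · exact h0
  rw [hν] at h1
  have h2 : EmpA w (TT d') := by
    refine firstE' P hP2 K δ hK hδ0 hδ w key d' Z (by rw [← hd0def]; exact hd0d) ?_ h1
    have : K ^ 2 / 18 = ν / 2 := by rw [hν]; ring
    rw [this, hZν, ← hr]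
    have e5 : 10 ≤ r * (ε / 2) := by nlinarith
    have e6 : r * ((d' : ℝ) + 3 / 2 + ε) ≤ r * σ := mul_le_mul_of_nonneg_left hd2 hrpos.le
    linarith
  refine h2.mono ?_
  rintro ⟨p, q⟩ ⟨hp, hq, hpq⟩
  exact ⟨hp, hq, hpq.trans (by exact_mod_cast hdd')⟩

/-- **General collisions, large `r`: all degrees outside a window of length `O(r ^ (- 1 / 6))`.** -/
theorem coll_rate {P r : ℕ} (hP2 : 2 ≤ P) (hr : 40 * (P : ℝ) ^ 3 ≤ √(r : ℝ)) (hsq : ¬ IsSquare r)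
    (m : ℕ) (L : Type u) [Field L] [CharZero L] :
    ∃ F : MvPolynomial (Fin (r + 1)) L, F ≠ 0 ∧
      ∀ (c : L) (a : Fin r → L), MvPolynomial.eval (Fin.cons c a : Fin (r + 1) → L) F ≠ 0 →
        ∀ d : ℕ, 20 / (P : ℝ) ≤ |2 * (d : ℝ) + 3 - √(r : ℝ) * (2 * m + 1)| → JetDim r m c a d := by
  have hP' : (2 : ℝ) ≤ P := by exact_mod_cast hP2
  have hP0 : (0 : ℝ) < P := by linarith
  have hs12 : (12 : ℝ) ≤ √(r : ℝ) := by
    refine le_trans ?_ hr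
    have : (8 : ℝ) ≤ (P : ℝ) ^ 3 := by
      calc (8 : ℝ) = 2 ^ 3 := by norm_num
        _ ≤ (P : ℝ) ^ 3 := pow_le_pow_left₀ (by norm_num) hP' 3
    linarith
  have hs0 : 0 < √(r : ℝ) := by linarith
  have hrpos : (0 : ℝ) < r := Real.sqrt_pos.1 hs0
  have hss : √(r : ℝ) * √(r : ℝ) = r := Real.mul_self_sqrt hrpos.le
  have hrR : (144 : ℝ) ≤ r := by nlinarith
  have hr3 : 144 ≤ r := by exact_mod_cast hrR
  rcases le_or_gt (m : ℝ) (r - 6 * √(r : ℝ) + 11) with hsm | hlg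
  · obtain ⟨F, hF, hF'⟩ := coll_start (by omega) (Or.inl hsm) L
    exact ⟨F, hF, fun c a hc d _ => hF' c a hc d⟩
  have hm2 : (r : ℝ) / 2 + 2 ≤ m := by nlinarith
  have e : (((r * m : ℕ) : ℝ) + (r : ℝ) / 2) / √(r : ℝ) = (m + 1 / 2) * √(r : ℝ) := by
    rw [div_eq_iff hs0.ne', mul_assoc, hss]
    push_cast
    ring
  obtain ⟨PL, hPL⟩ : ∃ PL : ℕ → Prop, PL = fun d : ℕ => (d : ℝ) + 3 / 2 + 10 / P ≤ (m + 1 / 2) * √(r : ℝ) :=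
    ⟨_, rfl⟩
  obtain ⟨PH, hPH⟩ : ∃ PH : ℕ → Prop, PH = fun d : ℕ => (m + 1 / 2) * √(r : ℝ) + 10 / P ≤ d + 3 / 2 := ⟨_, rfl⟩
  have hP10 : 0 < 10 / (P : ℝ) := by positivity
  have k1 : ∃ N : ℕ, ∀ d, PL d → d ≤ N := by
    refine ⟨⌈(m + 1 / 2) * √(r : ℝ)⌉₊, fun d hd => ?_⟩
    rw [hPL] at hd
    have h2 : (d : ℝ) ≤ (m + 1 / 2) * √(r : ℝ) := by linarith
    have := h2.trans (Nat.le_ceil _)
    exact_mod_cast this
  have k2 : ∀ d, PL d → EmpAt r m d := by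
    intro d hd
    rw [hPL] at hd
    refine EmpAt.of (EmpA_rate hP2 hr hsq _ (keyE r m) (r * m) (es_cl r m) d ?_ ?_)
    · push_cast
      exact mul_le_mul_of_nonneg_left hm2 (by linarith)
    · rw [e]; exact hd
  have k3 : ∀ d, PH d → IndAt r m d := by
    intro d hd
    rw [hPH] at hd
    refine IndAt.of (SurA_rate hP2 hr hsq _ (keyS r m) (r * m) (ss_op r m) d ?_)
    rw [e]; exact hd
  obtain ⟨F, hF, hF'⟩ := coll_wrap (r := r) (m := m) (by omega) k1 k2 k3 L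
  refine ⟨F, hF, fun c a hc d hd => hF' c a hc d ?_⟩
  rw [hPL, hPH]
  have e3 : 20 / (P : ℝ) = 2 * (10 / P) := by ring
  rw [e3] at hd
  rcases le_abs.1 hd with hd | hd
  · right; linarith
  · left; linarith

end Pool.Agent.K7.H55.AN
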