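import Pool.Agent.K7.H55.AN.Vdc

set_option autoImplicit false

/-! Square roots near odd integers: van der Corput's second derivative test in its full strength and
Fejér's kernel. -/

namespace Pool.Agent.K7.H55.AN

open Finset
open Pool.Agent.Helper153.Vdc

/-- van der Corput's second derivative test (the proof is the one of
`Pool.Agent.Helper153.Vdc.vdc_base`, before the loss of the exponent) -/
theorem vdc3 (A : ℝ) (hA : 1 ≤ A) (N M : ℕ) (g : ℕ → ℝ) (lam : ℝ) (hN : 1 ≤ N) (hMN : M ≤ N)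
    (hc : Cond 2 g M lam A) (hlam : 0 < lam) :
    ‖∑ n ∈ range M, ee (g n)‖ ^ 2 ≤
      34 * A * (lam * (N : ℝ) ^ 2 + (1 + Real.log N) * N + (1 + Real.log N) / lam) := by
  have hN1 : (1 : ℝ) ≤ N := by exact_mod_cast hN
  have hN0 : (0 : ℝ) < N := by linarith
  set L := 1 + Real.log N with hL
  have hL1 : 1 ≤ L := by
    rw [hL]; have := Real.log_nonneg hN1; linarith
  have hlL : 0 < L / lam := by positivity
  have hlN : 0 < lam * (N : ℝ) ^ 2 := by positivity
  have hNL : (N : ℝ) ≤ L * N := by nlinarith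
  rcases lt_or_ge 1 (2 * A * lam) with hsmall | hAl
  · -- trivial bound
    have h1 : (M : ℝ) ≤ N := by exact_mod_cast hMN
    have h2 : ‖∑ n ∈ range M, ee (g n)‖ ≤ N := (triv_bound M g).trans h1
    have h3 : ‖∑ n ∈ range M, ee (g n)‖ ^ 2 ≤ (N : ℝ) ^ 2 := pow_le_pow_left₀ (norm_nonneg _) h2 2
    have h4 : (N : ℝ) ^ 2 * 1 ≤ (N : ℝ) ^ 2 * (2 * A * lam) :=
      mul_le_mul_of_nonneg_left hsmall.le (by positivity)
    have h5 : 34 * A * (lam * (N : ℝ) ^ 2) ≤
        34 * A * (lam * (N : ℝ) ^ 2 + L * N + L / lam) := by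
      apply mul_le_mul_of_nonneg_left _ (by linarith)
      nlinarith
    have h6 : 0 ≤ A * (lam * (N : ℝ) ^ 2) := by positivity
    nlinarith
  have hAl0 : 0 < 2 * A * lam := by positivity
  set q := 1 / (2 * A * lam) with hq
  have hq1 : 1 ≤ q := by rw [hq, le_div_iff₀ hAl0]; linarith
  set H := min N ⌊q⌋₊ with hH
  have hH1 : 1 ≤ H := le_min hN (Nat.floor_pos.2 hq1)
  have hHN : H ≤ N := min_le_left _ _
  have hH0 : (0 : ℝ) < H := by exact_mod_cast hH1
  have hHq : (H : ℝ) ≤ q := by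
    have h1 : (H : ℝ) ≤ (⌊q⌋₊ : ℝ) := by exact_mod_cast min_le_right _ _
    exact h1.trans (Nat.floor_le (by linarith))
  have hHinv : 1 / (H : ℝ) ≤ 1 / N + 4 * A * lam := by
    rcases le_total N ⌊q⌋₊ with h | h
    · have : H = N := min_eq_left h
      rw [this]
      have : 0 < 4 * A * lam := by positivity
      linarith
    · have hHf : H = ⌊q⌋₊ := min_eq_right h
      have h1 : q < (⌊q⌋₊ : ℝ) + 1 := Nat.lt_floor_add_one q
      have h2 : (1 : ℝ) ≤ ⌊q⌋₊ := by exact_mod_cast Nat.floor_pos.2 hq1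
      have h3 : q ≤ 2 * H := by rw [hHf]; linarith
      have h4 : 1 / (H : ℝ) ≤ 2 / q := by
        rw [div_le_div_iff₀ hH0 (by linarith)]; linarith
      have h5 : 2 / q = 4 * A * lam := by rw [hq]; field_simp; ring
      have h6 : 0 < 1 / (N : ℝ) := by positivity
      linarith
  have hSh : ∀ h ∈ Ico 1 H, ‖∑ n ∈ range (M - h), ee ((fun n => g (n + h) - g n) n)‖ ≤
      2 / lam * (1 / (h : ℝ)) := by
    intro h hh
    rw [mem_Ico] at hh
    have hch := cond_diff (k := 1) hc hh.1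
    have hh0 : (0 : ℝ) < h := by exact_mod_cast hh.1
    have hhH : (h : ℝ) ≤ H := by exact_mod_cast hh.2.le
    have hle : A * (h * lam) ≤ 1 / 2 := by
      have h1 : (h : ℝ) * (2 * A * lam) ≤ 1 := by
        have h2 : (h : ℝ) ≤ q := hhH.trans hHq
        rw [hq, le_div_iff₀ hAl0] at h2
        exact h2
      linarith
    have hθ : (h : ℝ) * lam ≤ 1 / 2 := by
      have : 0 < (h : ℝ) * lam := by positivity
      nlinarith
    have hkl := kusmin_landau (M - h) (fun n => g (n + h) - g n) (h * lam) (by positivity) hθ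
      (fun n hn => by
        have := hch.1 n hn
        simp only [dd] at this
        exact ⟨this.1, this.2.trans hle⟩)
      (fun n hn => by
        have := hch.2 n hn
        simp only [dd] at this
        linarith)
    refine hkl.trans (le_of_eq ?_)
    field_simp
  have hsum : ∑ h ∈ Ico 1 H, ‖∑ n ∈ range (M - h), ee ((fun n => g (n + h) - g n) n)‖ ≤
      2 / lam * (1 + Real.log N) := by
    refine (Finset.sum_le_sum hSh).trans ?_
    rw [← Finset.mul_sum]
    exact mul_le_mul_of_nonneg_left (sum_inv_le hHN) (by positivity)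
  have hv := vdc_ineq' M N H hMN hH1 hHN g
  set T := ∑ h ∈ Ico 1 H, ‖∑ n ∈ range (M - h), ee ((fun n => g (n + h) - g n) n)‖ with hT
  have hT0 : 0 ≤ T := Finset.sum_nonneg fun _ _ => norm_nonneg _
  have h1 : 2 * (N : ℝ) / H * ((N : ℝ) + 2 * T) ≤
      (2 * N * (1 / N + 4 * A * lam)) * (N + 2 * (2 / lam * L)) := by
    have h2 : 2 * (N : ℝ) / H = 2 * N * (1 / H) := by ring
    rw [h2]
    apply mul_le_mul
    · exact mul_le_mul_of_nonneg_left hHinv (by positivity)
    · linarith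
    · positivity
    · positivity
  have h3 : (2 * N * (1 / N + 4 * A * lam)) * (N + 2 * (2 / lam * L)) =
      2 * N + 8 * (L / lam) + 8 * A * (lam * (N : ℝ) ^ 2) + 32 * A * (N * L) := by
    field_simp
    ring
  rw [h3] at h1
  refine (hv.trans h1).trans ?_
  have q1 : 2 * (N : ℝ) ≤ 2 * A * (L * N) := by
    have : 0 ≤ L * (N : ℝ) := by positivity
    nlinarith
  have q2 : 8 * (L / lam) ≤ 34 * A * (L / lam) := mul_le_mul_of_nonneg_right (by linarith) hlL.le
  have q3 : 8 * A * (lam * (N : ℝ) ^ 2) ≤ 34 * A * (lam * (N : ℝ) ^ 2) :=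
    mul_le_mul_of_nonneg_right (by linarith) hlN.le
  have e : 34 * A * (lam * (N : ℝ) ^ 2 + L * N + L / lam) =
      34 * A * (lam * (N : ℝ) ^ 2) + (2 * A * (L * N) + 32 * A * (N * L)) + 34 * A * (L / lam) := by ring
  rw [e]
  linarith

theorem ee_conj (x : ℝ) : (starRingEnd ℂ) (ee x) = ee (-x) := by
  have h := ee_mul_conj 0 x
  have h0 : ee 0 = 1 := by unfold ee; simp
  rw [h0, one_mul, zero_sub] at h
  exact h

theorem ee_re (x : ℝ) : (ee x).re = Real.cos (2 * Real.pi * x) := by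
  unfold ee
  have e : (2 * Real.pi * x * Complex.I : ℂ) = ((2 * Real.pi * x : ℝ) : ℂ) * Complex.I := by
    push_cast; ring
  rw [e, Complex.exp_ofReal_mul_I_re]

/-- points near an integer are few if the exponential sums are small -/
theorem fejer {ι : Type*} (s : Finset ι) (x : ι → ℝ) (H : ℕ) (hH : 1 ≤ H) (E : ℝ)
    (hE : ∀ h : ℕ, 1 ≤ h → h < H → ‖∑ i ∈ s, ee (h * x i)‖ ≤ E) (t : Finset ι) (hts : t ⊆ s)
    (ht : ∀ i ∈ t, ∃ k : ℤ, |x i - k| ≤ 1 / (8 * H)) :
    (t.card : ℝ) ≤ 4 * (s.card / H) + 4 * max E 0 := by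
  classical
  have hHR : (0 : ℝ) < H := by exact_mod_cast hH
  -- lower bound
  have hlow : ∀ i ∈ t, ((H : ℝ) / 2) ^ 2 ≤ ‖∑ k ∈ range H, ee (k * x i)‖ ^ 2 := by
    intro i hi
    obtain ⟨n, hn⟩ := ht i hi
    apply pow_le_pow_left₀ (by positivity)
    refine le_trans ?_ (Complex.re_le_norm _)
    rw [Complex.re_sum]
    have h1 : ∀ k ∈ range H, (1 / 2 : ℝ) ≤ (ee (k * x i)).re := by
      intro k hk
      have hkH : (k : ℝ) ≤ H := by exact_mod_cast (mem_range.1 hk).le
      have hk0 : (0 : ℝ) ≤ k := Nat.cast_nonneg k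
      rw [ee_re]
      have e1 : Real.cos (2 * Real.pi * (k * x i)) = Real.cos (2 * Real.pi * (k * (x i - n))) := by
        rw [← Real.cos_sub_int_mul_two_pi _ ((k : ℤ) * n)]
        congr 1
        push_cast
        ring
      have h2 : |2 * Real.pi * (k * (x i - n))| ≤ Real.pi / 3 := by
        rw [abs_mul, abs_of_pos Real.two_pi_pos, abs_mul, Nat.abs_cast]
        have h3 : (k : ℝ) * |x i - n| ≤ H * (1 / (8 * H)) := mul_le_mul hkH hn (abs_nonneg _) hHR.le
        have h4 : (H : ℝ) * (1 / (8 * H)) = 1 / 8 := by field_simp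
        rw [h4] at h3
        have := Real.pi_pos
        nlinarith
      rw [e1, ← Real.cos_pi_div_three, ← Real.cos_abs (2 * Real.pi * (k * (x i - n)))]
      exact Real.cos_le_cos_of_nonneg_of_le_pi (abs_nonneg _) (by linarith [Real.pi_pos]) h2
    have h2 := sum_le_sum h1
    rw [sum_const, card_range, nsmul_eq_mul] at h2
    linarith
  have h1 : (t.card : ℝ) * ((H : ℝ) / 2) ^ 2 ≤ ∑ i ∈ s, ‖∑ k ∈ range H, ee (k * x i)‖ ^ 2 := by
    rw [← nsmul_eq_mul, ← sum_const]
    exact (sum_le_sum hlow).trans (sum_le_sum_of_subset_of_nonneg hts fun _ _ _ => by positivity)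
  -- upper bound
  have e1 : ∀ i ∈ s, ((‖∑ k ∈ range H, ee (k * x i)‖ ^ 2 : ℝ) : ℂ) =
      ∑ k ∈ range H, ∑ l ∈ range H, ee (((k : ℝ) - l) * x i) := by
    intro i _
    rw [Complex.ofReal_pow, ← Complex.mul_conj', map_sum, sum_mul_sum]
    refine sum_congr rfl fun k _ => sum_congr rfl fun l _ => ?_
    rw [ee_mul_conj]
    congr 1
    ring
  have e2 : ((∑ i ∈ s, ‖∑ k ∈ range H, ee (k * x i)‖ ^ 2 : ℝ) : ℂ) =
      ∑ k ∈ range H, ∑ l ∈ range H, ∑ i ∈ s, ee (((k : ℝ) - l) * x i) := by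
    rw [Complex.ofReal_sum, sum_congr rfl e1, sum_comm]
    refine sum_congr rfl fun k _ => ?_
    rw [sum_comm]
  have h2 : ∀ k l : ℕ, k < H → l < H → ‖∑ i ∈ s, ee (((k : ℝ) - l) * x i)‖ ≤
      (if k = l then (s.card : ℝ) else 0) + max E 0 := by
    intro k l hk hl
    rcases lt_trichotomy k l with h | h | h
    · rw [if_neg h.ne, zero_add]
      have e3 : ∑ i ∈ s, ee (((k : ℝ) - l) * x i) =
          (starRingEnd ℂ) (∑ i ∈ s, ee (((l - k : ℕ) : ℝ) * x i)) := by
        rw [map_sum]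
        refine sum_congr rfl fun i _ => ?_
        rw [ee_conj, Nat.cast_sub h.le]
        congr 1
        ring
      rw [e3, Complex.norm_conj]
      exact (hE (l - k) (by omega) (by omega)).trans (le_max_left _ _)
    · rw [if_pos h, h]
      have h3 : ∑ i ∈ s, ee (((l : ℝ) - l) * x i) = s.card := by
        rw [sum_congr rfl fun i _ => show ee (((l : ℝ) - l) * x i) = 1 by
          rw [sub_self, zero_mul]; unfold ee; simp]
        simp
      rw [h3, Complex.norm_natCast]
      linarith [le_max_right E 0]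
    · rw [if_neg h.ne', zero_add]
      have e3 : ∑ i ∈ s, ee (((k : ℝ) - l) * x i) = ∑ i ∈ s, ee (((k - l : ℕ) : ℝ) * x i) := by
        refine sum_congr rfl fun i _ => ?_
        rw [Nat.cast_sub h.le]
      rw [e3]
      exact (hE (k - l) (by omega) (by omega)).trans (le_max_left _ _)
  have h3 : ∑ i ∈ s, ‖∑ k ∈ range H, ee (k * x i)‖ ^ 2 ≤
      ∑ k ∈ range H, ∑ l ∈ range H, ((if k = l then (s.card : ℝ) else 0) + max E 0) := by
    have h4 : ∑ i ∈ s, ‖∑ k ∈ range H, ee (k * x i)‖ ^ 2 =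
        ‖((∑ i ∈ s, ‖∑ k ∈ range H, ee (k * x i)‖ ^ 2 : ℝ) : ℂ)‖ := by
      rw [Complex.norm_real, Real.norm_of_nonneg]
      exact sum_nonneg fun _ _ => by positivity
    rw [h4, e2]
    refine (norm_sum_le _ _).trans (sum_le_sum fun k hk => ?_)
    refine (norm_sum_le _ _).trans (sum_le_sum fun l hl => ?_)
    exact h2 k l (mem_range.1 hk) (mem_range.1 hl)
  have h4 : ∑ k ∈ range H, ∑ l ∈ range H, ((if k = l then (s.card : ℝ) else 0) + max E 0) =
      H * s.card + (H : ℝ) ^ 2 * max E 0 := by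
    have h5 : ∀ k ∈ range H, ∑ l ∈ range H, ((if k = l then (s.card : ℝ) else 0) + max E 0) =
        s.card + H * max E 0 := by
      intro k hk
      rw [sum_add_distrib, sum_ite_eq, if_pos hk, sum_const, card_range, nsmul_eq_mul]
    rw [sum_congr rfl h5, sum_const, card_range, nsmul_eq_mul]
    ring
  rw [h4] at h3
  have h5 := h1.trans h3
  have h6 : (t.card : ℝ) * (H : ℝ) ^ 2 ≤ (4 * (s.card / H) + 4 * max E 0) * (H : ℝ) ^ 2 := by
    have e3 : (4 * ((s.card : ℝ) / H) + 4 * max E 0) * (H : ℝ) ^ 2 =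
        4 * (H * s.card + (H : ℝ) ^ 2 * max E 0) := by
      field_simp
    rw [e3]
    linarith
  exact le_of_mul_le_mul_right h6 (by positivity)

end Pool.Agent.K7.H55.AN
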