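import Pool.Agent.K7.H55.AN.Few
import Pool.Agent.K7.H55.AN.Rate
import Pool.Agent.K7.H55.AN.Vdc3

set_option autoImplicit false

/-! For every multiplicity `m` all but `O(m ^ (5 / 6))` numbers of points are settled in every degree. -/

namespace Pool.Agent.K7.H55.AN

open Finset Pool.Agent.H932R2 Pool.Agent.H932R3 Pool.Agent.TH183.QS
open Pool.Agent.Helper153.Vdc (ee dd Cond)

universe u

theorem all_of_square {r m : ℕ} (h : 10 ≤ r) (hs : IsSquare r) : All.{u} r m := by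
  intro L _ _
  obtain ⟨F, hF, hF'⟩ := coll_start (m := m) h (Or.inr hs) L
  exact ⟨F, hF, fun c a hc d => hF' c a hc d⟩

theorem geom_bound {q : ℝ} (hq : 2 ≤ q) (n : ℕ) : ∑ i ∈ range (n + 1), q ^ i ≤ 2 * q ^ n := by
  induction n with
  | zero => simp
  | succ n ih =>
    rw [sum_range_succ]
    have h1 : 2 * q ^ n ≤ q ^ (n + 1) := by
      rw [pow_succ, mul_comm (q ^ n)]
      exact mul_le_mul_of_nonneg_right hq (by positivity)
    linarith

open Classical in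
/-- the numbers of one block with `(2 m + 1) √r` near an odd integer -/
theorem block2 (i m : ℕ) (hi : 9 ≤ i) (him : 64 ^ i ≤ 2 * m) :
    (((range (64 ^ (i + 1) - 64 ^ i)).filter fun j : ℕ => ∃ D : ℤ,
        |(2 * (D : ℝ) + 1) - √(((64 ^ (i + 1) : ℕ) : ℝ) - (j : ℝ)) * (2 * m + 1)| < 80 / 2 ^ i).card : ℝ) ≤
        10 ^ 6 * ((32 : ℝ) ^ i + (4 : ℝ) ^ i * √(2 * (m : ℝ) + 1)) := by
  obtain ⟨q, hq⟩ : ∃ q : ℝ, q = (2 : ℝ) ^ i := ⟨_, rfl⟩
  have hq512 : 512 ≤ q := by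
    rw [hq]
    calc (512 : ℝ) = 2 ^ 9 := by norm_num
      _ ≤ 2 ^ i := pow_le_pow_right₀ (by norm_num) hi
  have hq0 : 0 < q := by linarith
  obtain ⟨w, hw⟩ : ∃ w : ℝ, w = 2 * (m : ℝ) + 1 := ⟨_, rfl⟩
  have hq6 : q ^ 6 = 64 ^ i := by
    rw [hq, ← pow_mul, mul_comm, pow_mul]; norm_num
  have hq5 : q ^ 5 = 32 ^ i := by
    rw [hq, ← pow_mul, mul_comm, pow_mul]; norm_num
  have hq2 : q ^ 2 = 4 ^ i := by
    rw [hq, ← pow_mul, mul_comm, pow_mul]; norm_num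
  have hwq : q ^ 6 ≤ w := by
    rw [hq6, hw]
    have : ((64 : ℝ) ^ i) ≤ 2 * m := by exact_mod_cast him
    linarith
  have hq61 : (1 : ℝ) ≤ q ^ 6 := one_le_pow₀ (by linarith)
  have hw1 : 1 ≤ w := by linarith
  have hw0 : 0 < w := by linarith
  obtain ⟨R0, hR0⟩ : ∃ R0 : ℕ, R0 = 64 ^ i := ⟨_, rfl⟩
  obtain ⟨R1, hR1⟩ : ∃ R1 : ℕ, R1 = 64 ^ (i + 1) := ⟨_, rfl⟩
  have hR0R : (R0 : ℝ) = q ^ 6 := by rw [hR0, hq6]; push_cast; rfl
  have hR1R : (R1 : ℝ) = 64 * q ^ 6 := by rw [hR1, hq6]; push_cast; ring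
  have hR0p : 0 < R0 := by rw [hR0]; positivity
  have hR10 : (0 : ℝ) < R1 := by rw [hR1R]; positivity
  have hR1p : 1 ≤ R1 := by rw [hR1]; exact Nat.one_le_pow _ _ (by norm_num)
  have hsR1 : √(R1 : ℝ) = 8 * q ^ 3 := by
    rw [hR1R, show 64 * q ^ 6 = (8 * q ^ 3) ^ 2 by ring, Real.sqrt_sq (by positivity)]
  obtain ⟨H, hH⟩ : ∃ H : ℕ, H = 2 ^ (i - 9) := ⟨_, rfl⟩
  have hHR : (H : ℝ) * 512 = q := by
    rw [hH, hq]
    push_cast
    rw [show (512 : ℝ) = 2 ^ 9 by norm_num, ← pow_add]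
    congr 1
    omega
  have hH1 : 1 ≤ H := by rw [hH]; exact Nat.one_le_pow _ _ (by norm_num)
  have hH0 : (0 : ℝ) < H := by exact_mod_cast hH1
  rw [← hR0, ← hR1, ← hq, ← hw]
  have hE : ∀ h : ℕ, 1 ≤ h → h < H →
      ‖∑ j ∈ range (R1 - R0), ee (h * (-(√((R1 : ℝ) - j) * w) / 2 + 1 / 2))‖ ≤
        10 ^ 5 * (q ^ 2 * √w) := by
    intro h h1 h2
    have hhR : (1 : ℝ) ≤ h := by exact_mod_cast h1
    have hhH : (h : ℝ) * 512 ≤ q := by
      have : (h : ℝ) ≤ H := by exact_mod_cast h2.le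
      linarith
    have hh0 : (0 : ℝ) < h := by linarith
    have hc : 0 < (h : ℝ) * w / 2 := by positivity
    have hcond := cond_sqrt (c := (h : ℝ) * w / 2) hc (R0 := R0) (R1 := R1)
      (δ := 1 / 64) (by norm_num) (by norm_num) hR0p (by rw [hR1R, hR0R]; linarith)
    obtain ⟨lam, hlam⟩ : ∃ lam : ℝ, lam = h * w / (4096 * q ^ 9) := ⟨_, rfl⟩
    have hlam0 : 0 < lam := by rw [hlam]; positivity
    have elam : (h : ℝ) * w / 2 / (4 * ((R1 : ℝ) * √(R1 : ℝ))) = lam := by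
      rw [hsR1, hR1R, hlam]
      field_simp
      ring
    rw [elam] at hcond
    have hv := vdc3 (1 / (1 / 64 : ℝ) ^ 2) (by norm_num) R1 (R1 - R0) _ lam hR1p (Nat.sub_le _ _)
      hcond hlam0
    have e1 : ∀ j ∈ range (R1 - R0), ee (h * (-(√((R1 : ℝ) - j) * w) / 2 + 1 / 2)) =
        ee (h * (1 / 2)) * ee (-((h : ℝ) * w / 2 * √((R1 : ℝ) - j))) := by
      intro j _
      rw [← e_eq_ee, ← e_eq_ee, ← e_eq_ee, ← Pool.Agent.H469R2.NK.e_add]
      congr 1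
      ring
    have en : ‖ee ((h : ℝ) * (1 / 2))‖ = 1 := by
      rw [← e_eq_ee]; exact Pool.Agent.H469R2.NK.norm_e _
    rw [sum_congr rfl e1, ← mul_sum, norm_mul, en, one_mul]
    refine (pow_le_pow_iff_left₀ (norm_nonneg _) (by positivity) two_ne_zero).1 (hv.trans ?_)
    -- the estimate
    have hL : 1 + Real.log R1 ≤ 12 * q := by
      have h3 : Real.log R1 = 6 * Real.log (2 * q) := by
        rw [hR1R, show 64 * q ^ 6 = (2 * q) ^ 6 by ring, Real.log_pow]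
        norm_num
      have h4 := Real.log_le_sub_one_of_pos (show 0 < 2 * q by positivity)
      rw [h3]
      linarith
    have t1 : lam * (R1 : ℝ) ^ 2 ≤ q ^ 4 * w := by
      have e3 : lam * (R1 : ℝ) ^ 2 = (h * 512) * (w * q ^ 3) / 512 := by
        rw [hlam, hR1R]
        field_simp
        ring
      rw [e3]
      have h3 := mul_le_mul_of_nonneg_right hhH (show 0 ≤ w * q ^ 3 by positivity)
      have h4 : q * (w * q ^ 3) = q ^ 4 * w := by ring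
      have h5 : 0 ≤ q ^ 4 * w := by positivity
      linarith
    have hq4w : q ^ 10 ≤ q ^ 4 * w := by
      have := mul_le_mul_of_nonneg_left hwq (show 0 ≤ q ^ 4 by positivity)
      calc q ^ 10 = q ^ 4 * q ^ 6 := by ring
        _ ≤ _ := this
    have t2 : (1 + Real.log R1) * R1 ≤ 768 * (q ^ 4 * w) := by
      have h3 := mul_le_mul_of_nonneg_right hL hR10.le
      rw [hR1R] at h3 ⊢
      have h4 : 12 * q * (64 * q ^ 6) = 768 * q ^ 7 := by ring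
      have h5 : q ^ 7 ≤ q ^ 10 := pow_le_pow_right₀ (by linarith) (by norm_num)
      linarith
    have t3 : (1 + Real.log R1) / lam ≤ 49152 * (q ^ 4 * w) := by
      rw [div_le_iff₀ hlam0]
      have h3 : 12 * q ≤ 49152 * (q ^ 4 * w) * lam := by
        have e3 : 49152 * (q ^ 4 * w) * lam = 12 * (h * (w * w)) / q ^ 5 := by
          rw [hlam]
          field_simp
          ring
        rw [e3, le_div_iff₀ (by positivity)]
        have h4 : q ^ 6 * q ^ 6 ≤ w * w := mul_le_mul hwq hwq (by positivity) hw0.le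
        have h5 : q ^ 6 ≤ q ^ 6 * q ^ 6 := by nlinarith
        have h6 : 1 * (w * w) ≤ h * (w * w) := mul_le_mul_of_nonneg_right hhR (by positivity)
        have h7 : 12 * q * q ^ 5 = 12 * q ^ 6 := by ring
        linarith
      linarith
    have e4 : (10 ^ 5 * (q ^ 2 * √w)) ^ 2 = 10 ^ 10 * (q ^ 4 * w) := by
      have : √w ^ 2 = w := Real.sq_sqrt hw0.le
      calc (10 ^ 5 * (q ^ 2 * √w)) ^ 2 = 10 ^ 10 * (q ^ 4 * √w ^ 2) := by ring
        _ = _ := by rw [this]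
    rw [e4]
    have h8 : 0 ≤ q ^ 4 * w := by positivity
    have e5 : (34 * (1 / (1 / 64 : ℝ) ^ 2)) = 139264 := by norm_num
    rw [e5]
    nlinarith
  have hcard : ((range (R1 - R0)).card : ℝ) ≤ 64 * q ^ 6 := by
    rw [card_range, ← hR1R]
    exact_mod_cast Nat.sub_le _ _
  have hfe := fejer (range (R1 - R0)) (fun j => -(√((R1 : ℝ) - (j : ℝ)) * w) / 2 + 1 / 2) H hH1
    (10 ^ 5 * (q ^ 2 * √w)) hE ((range (R1 - R0)).filter fun j : ℕ => ∃ D : ℤ,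
        |(2 * (D : ℝ) + 1) - √((R1 : ℝ) - (j : ℝ)) * w| < 80 / q) (filter_subset _ _) (by
      intro j hj
      obtain ⟨-, D, hD⟩ := mem_filter.1 hj
      refine ⟨-D, ?_⟩
      have e1 : -(√((R1 : ℝ) - (j : ℝ)) * w) / 2 + 1 / 2 - ((-D : ℤ) : ℝ) =
          ((2 * (D : ℝ) + 1) - √((R1 : ℝ) - (j : ℝ)) * w) / 2 := by
        push_cast
        ring
      rw [e1, abs_div, abs_two, div_le_div_iff₀ (by norm_num) (by positivity), one_mul]
      have h1 : 80 / q * (8 * H) ≤ 2 := by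
        rw [div_mul_eq_mul_div, div_le_iff₀ hq0]
        linarith
      have h2 := mul_le_mul_of_nonneg_right hD.le (show (0 : ℝ) ≤ 8 * H by positivity)
      linarith)
  refine hfe.trans ?_
  have h1 : ((range (R1 - R0)).card : ℝ) / H ≤ 32768 * q ^ 5 := by
    rw [div_le_iff₀ hH0]
    have : 32768 * q ^ 5 * H = 64 * q ^ 5 * (H * 512) := by ring
    rw [this, hHR]
    have e1 : 64 * q ^ 5 * q = 64 * q ^ 6 := by ring
    rw [e1]
    exact hcard
  rw [max_eq_left (by positivity), ← hq5, ← hq2]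
  have h2 : 0 ≤ q ^ 5 := by positivity
  have h3 : 0 ≤ q ^ 2 * √w := by positivity
  linarith

/-- a number of a block that is not settled is near an odd integer -/
theorem bad_near {r m i : ℕ} (hi : 8 ≤ i) (hr : 64 ^ i < r) (hbad : ¬ All.{u} r m) :
    ∃ D : ℤ, |(2 * (D : ℝ) + 1) - √(r : ℝ) * (2 * m + 1)| < 80 / 2 ^ i := by
  have h10 : 10 ≤ r := by
    have : 64 ^ 8 ≤ 64 ^ i := Nat.pow_le_pow_right (by norm_num) hi
    omega
  have hsq : ¬ IsSquare r := fun h => hbad (all_of_square h10 h)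
  by_contra hcon
  push Not at hcon
  apply hbad
  obtain ⟨P, hP⟩ : ∃ P : ℕ, P = 2 ^ (i - 2) := ⟨_, rfl⟩
  have hP2 : 2 ≤ P := by
    rw [hP]
    calc 2 = 2 ^ 1 := rfl
      _ ≤ 2 ^ (i - 2) := Nat.pow_le_pow_right (by norm_num) (by omega)
  have hPR : (P : ℝ) * 4 = 2 ^ i := by
    rw [hP]
    push_cast
    rw [show (4 : ℝ) = 2 ^ 2 by norm_num, ← pow_add]
    congr 1
    omega
  have hP0 : (0 : ℝ) < P := by exact_mod_cast (by omega : 0 < P)
  have hsr : 40 * (P : ℝ) ^ 3 ≤ √(r : ℝ) := by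
    have h1 : ((8 : ℝ) ^ i) ≤ √(r : ℝ) := by
      apply Real.le_sqrt_of_sq_le
      rw [← pow_mul, mul_comm, pow_mul]
      norm_num
      exact_mod_cast hr.le
    have h2 : (8 : ℝ) ^ i = ((2 : ℝ) ^ i) ^ 3 := by
      rw [← pow_mul, mul_comm, pow_mul]
      norm_num
    rw [h2, ← hPR] at h1
    have h3 : ((P : ℝ) * 4) ^ 3 = 64 * (P : ℝ) ^ 3 := by ring
    rw [h3] at h1
    have h4 : 0 < (P : ℝ) ^ 3 := by positivity
    linarith
  intro L _ _
  obtain ⟨F, hF, hF'⟩ := coll_rate hP2 hsr hsq m L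
  refine ⟨F, hF, fun c a hc d => hF' c a hc d ?_⟩
  have h1 := hcon ((d : ℤ) + 1)
  have e1 : (80 : ℝ) / 2 ^ i = 20 / P := by
    rw [← hPR]
    field_simp
    norm_num
  have e2 : 2 * ((((d : ℤ) + 1 : ℤ)) : ℝ) + 1 - √(r : ℝ) * (2 * m + 1) =
      2 * (d : ℝ) + 3 - √(r : ℝ) * (2 * m + 1) := by
    push_cast
    ring
  rw [e1, e2] at h1
  exact h1

/-- **For every multiplicity all but `O(m ^ (5 / 6))` numbers of points.** -/
theorem few56 : ∃ C : ℝ, 0 < C ∧ ∀ m : ℕ, 1 ≤ m →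
    {r : ℕ | 10 ≤ r ∧ ¬ All.{u} r m}.Finite ∧
      (({r : ℕ | 10 ≤ r ∧ ¬ All.{u} r m}.ncard : ℕ) : ℝ) ≤ C * (m : ℝ) ^ ((5 : ℝ) / 6) := by
  classical
  refine ⟨64 ^ 9 + 2 + 10 ^ 6 * 12, by norm_num, fun m hm => ?_⟩
  have hmR : (1 : ℝ) ≤ m := by exact_mod_cast hm
  obtain ⟨y, hy⟩ : ∃ y : ℝ, y = (m : ℝ) ^ ((5 : ℝ) / 6) := ⟨_, rfl⟩
  have hy1 : 1 ≤ y := by rw [hy]; exact Real.one_le_rpow hmR (by norm_num)
  obtain ⟨Im, hIm⟩ : ∃ Im : ℕ → Finset ℕ, Im = fun i =>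
      ((range (64 ^ (i + 1) - 64 ^ i)).filter fun j : ℕ => ∃ D : ℤ,
        |(2 * (D : ℝ) + 1) - √(((64 ^ (i + 1) : ℕ) : ℝ) - (j : ℝ)) * (2 * m + 1)| < 80 / 2 ^ i).image
        fun j => 64 ^ (i + 1) - j := ⟨_, rfl⟩
  obtain ⟨Is, hIs⟩ : ∃ Is : Finset ℕ, Is = (range (Nat.log 64 (2 * m) + 1)).filter fun i => 9 ≤ i :=
    ⟨_, rfl⟩
  obtain ⟨T, hT⟩ : ∃ T : Finset ℕ, T = range (64 ^ 9 + 2) ∪ Is.biUnion Im := ⟨_, rfl⟩
  have hsub : {r : ℕ | 10 ≤ r ∧ ¬ All.{u} r m} ⊆ (T : Set ℕ) := by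
    rintro r ⟨hr10, hr⟩
    by_contra hrT
    rw [hT, mem_coe, mem_union, not_or, mem_range, not_lt] at hrT
    obtain ⟨hr1, hr2⟩ := hrT
    have hrlt : r < 2 * m := by
      by_contra hcon
      exact hr (all_of_large (by omega) (by omega))
    obtain ⟨i, hi⟩ : ∃ i : ℕ, i = Nat.log 64 (r - 1) := ⟨_, rfl⟩
    have hi1 : 64 ^ i ≤ r - 1 := by rw [hi]; exact Nat.pow_log_le_self 64 (by omega)
    have hi2 : r - 1 < 64 ^ (i + 1) := by
      rw [hi]
      exact Nat.lt_pow_succ_log_self (by norm_num) _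
    have hi9 : 9 ≤ i := by
      rw [hi]
      exact Nat.le_log_of_pow_le (by norm_num) (by omega)
    have hiI : i ≤ Nat.log 64 (2 * m) := Nat.le_log_of_pow_le (by norm_num) (by omega)
    apply hr2
    rw [mem_biUnion]
    refine ⟨i, ?_, ?_⟩
    · rw [hIs, mem_filter, mem_range]
      exact ⟨by omega, hi9⟩
    · rw [hIm]
      beta_reduce
      rw [mem_image]
      have hle : r ≤ 64 ^ (i + 1) := by omega
      refine ⟨64 ^ (i + 1) - r, ?_, by omega⟩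
      rw [mem_filter, mem_range]
      obtain ⟨D, hD⟩ := bad_near (by omega : 8 ≤ i) (by omega) hr
      refine ⟨by omega, D, ?_⟩
      have e : ((64 ^ (i + 1) : ℕ) : ℝ) - ((64 ^ (i + 1) - r : ℕ) : ℝ) = r := by
        rw [Nat.cast_sub hle]
        ring
      rw [e]
      exact hD
  refine ⟨(finite_toSet T).subset hsub, ?_⟩
  have h1 := Set.ncard_le_ncard hsub (finite_toSet T)
  rw [Set.ncard_coe_finset] at h1
  have h2 : T.card ≤ (64 ^ 9 + 2) + ∑ i ∈ Is, (Im i).card := by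
    rw [hT]
    refine (card_union_le _ _).trans ?_
    rw [card_range]
    exact Nat.add_le_add_left card_biUnion_le _
  obtain ⟨I, hI⟩ : ∃ I : ℕ, I = Nat.log 64 (2 * m) := ⟨_, rfl⟩
  obtain ⟨w, hw⟩ : ∃ w : ℝ, w = 2 * (m : ℝ) + 1 := ⟨_, rfl⟩
  have hw1 : 1 ≤ w := by rw [hw]; linarith
  have hw0 : 0 < w := by linarith
  have h3 : ((∑ i ∈ Is, (Im i).card : ℕ) : ℝ) ≤
      ∑ i ∈ range (I + 1), 10 ^ 6 * ((32 : ℝ) ^ i + (4 : ℝ) ^ i * √w) := by
    rw [Nat.cast_sum]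
    have hIs2 : Is ⊆ range (I + 1) := by
      rw [hIs, hI]
      exact filter_subset _ _
    refine le_trans (sum_le_sum fun i hi => ?_) (sum_le_sum_of_subset_of_nonneg hIs2 fun i _ _ => by positivity)
    rw [hIs, mem_filter, mem_range] at hi
    obtain ⟨hi1, hi9⟩ := hi
    have e1 : 64 ^ i ≤ 2 * m := by
      calc 64 ^ i ≤ 64 ^ Nat.log 64 (2 * m) := Nat.pow_le_pow_right (by norm_num) (by omega)
        _ ≤ 2 * m := Nat.pow_log_le_self 64 (by omega)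
    have h4 := block2 i m hi9 e1
    rw [← hw] at h4
    refine le_trans ?_ h4
    rw [hIm, hw]
    beta_reduce
    exact_mod_cast card_image_le
  have hIm64 : ((64 : ℝ) ^ I) ≤ w := by
    have := Nat.pow_log_le_self 64 (show 2 * m ≠ 0 by omega)
    rw [← hI] at this
    have h4 : ((64 : ℝ) ^ I) ≤ 2 * m := by exact_mod_cast this
    rw [hw]
    linarith
  have hI0 : (0 : ℝ) ≤ (64 : ℝ) ^ I := by positivity
  have h32 : (32 : ℝ) ^ I = ((64 : ℝ) ^ I) ^ ((5 : ℝ) / 6) := by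
    rw [← Real.rpow_natCast, ← Real.rpow_natCast, ← Real.rpow_mul (by norm_num), mul_comm (I : ℝ),
      Real.rpow_mul (by norm_num)]
    congr 1
    rw [show (64 : ℝ) = 2 ^ (6 : ℕ) by norm_num, ← Real.rpow_natCast, ← Real.rpow_mul (by norm_num)]
    norm_num
  have h44 : (4 : ℝ) ^ I = ((64 : ℝ) ^ I) ^ ((1 : ℝ) / 3) := by
    rw [← Real.rpow_natCast, ← Real.rpow_natCast, ← Real.rpow_mul (by norm_num), mul_comm (I : ℝ),
      Real.rpow_mul (by norm_num)]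
    congr 1
    rw [show (64 : ℝ) = 2 ^ (6 : ℕ) by norm_num, ← Real.rpow_natCast, ← Real.rpow_mul (by norm_num)]
    norm_num
  have hwy : w ^ ((5 : ℝ) / 6) ≤ 3 * y := by
    calc w ^ ((5 : ℝ) / 6) ≤ (3 * (m : ℝ)) ^ ((5 : ℝ) / 6) :=
          Real.rpow_le_rpow hw0.le (by rw [hw]; linarith) (by norm_num)
      _ = (3 : ℝ) ^ ((5 : ℝ) / 6) * y := by rw [hy, Real.mul_rpow (by norm_num) (by linarith)]
      _ ≤ 3 * y := by
        apply mul_le_mul_of_nonneg_right _ (by linarith)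
        calc (3 : ℝ) ^ ((5 : ℝ) / 6) ≤ (3 : ℝ) ^ (1 : ℝ) :=
              Real.rpow_le_rpow_of_exponent_le (by norm_num) (by norm_num)
          _ = 3 := Real.rpow_one _
  have b1 : (32 : ℝ) ^ I ≤ 3 * y := by
    rw [h32]
    exact (Real.rpow_le_rpow hI0 hIm64 (by norm_num)).trans hwy
  have b2 : (4 : ℝ) ^ I * √w ≤ 3 * y := by
    rw [h44, Real.sqrt_eq_rpow]
    have h4 : ((64 : ℝ) ^ I) ^ ((1 : ℝ) / 3) ≤ w ^ ((1 : ℝ) / 3) :=
      Real.rpow_le_rpow hI0 hIm64 (by norm_num)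
    calc ((64 : ℝ) ^ I) ^ ((1 : ℝ) / 3) * w ^ ((1 : ℝ) / 2) ≤ w ^ ((1 : ℝ) / 3) * w ^ ((1 : ℝ) / 2) :=
          mul_le_mul_of_nonneg_right h4 (by positivity)
      _ = w ^ ((5 : ℝ) / 6) := by rw [← Real.rpow_add hw0]; norm_num
      _ ≤ 3 * y := hwy
  have h4 : ∑ i ∈ range (I + 1), 10 ^ 6 * ((32 : ℝ) ^ i + (4 : ℝ) ^ i * √w) ≤ 10 ^ 6 * (12 * y) := by
    rw [← mul_sum, sum_add_distrib, ← sum_mul]
    refine mul_le_mul_of_nonneg_left ?_ (by norm_num)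
    have c1 := geom_bound (q := 32) (by norm_num) I
    have c2 := geom_bound (q := 4) (by norm_num) I
    have c3 := mul_le_mul_of_nonneg_right c2 (Real.sqrt_nonneg w)
    have c4 : 2 * (4 : ℝ) ^ I * √w = 2 * ((4 : ℝ) ^ I * √w) := by ring
    linarith
  have h6 : ((({r : ℕ | 10 ≤ r ∧ ¬ All.{u} r m}.ncard : ℕ)) : ℝ) ≤
      ((64 ^ 9 + 2 : ℕ) : ℝ) + ((∑ i ∈ Is, (Im i).card : ℕ) : ℝ) := by
    exact_mod_cast h1.trans h2
  rw [← hy]
  refine h6.trans ?_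
  push_cast
  push_cast at h3
  nlinarith

end Pool.Agent.K7.H55.AN
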