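import Pool.Agent.K7.H55.AN.Tog

set_option autoImplicit false

/-! Multiplicities for which every number of points up to a bound is settled in every degree. -/

namespace Pool.Agent.K7.H55.AN

open Finset Pool.Agent.H932R2 Pool.Agent.H932R3 Pool.Agent.TH183.QS

universe u

/-- **All numbers of points up to `R` at once**, from windows of half length below `1`. -/
theorem together_all (hgood : ∀ r : ℕ, 10 ≤ r → ¬ IsSquare r →
      ∃ lo hi : ℝ, Good.{u} r lo hi ∧ lo < 1 ∧ hi < 1) (R : ℕ) :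
    ∃ B : ℕ, ∀ M : ℕ, ∃ m : ℕ, M ≤ m ∧ m < M + B ∧
      ∀ r : ℕ, 10 ≤ r → (r ≤ R ∨ IsSquare r) → All.{u} r m := by
  classical
  choose sf kk hkk hsf using sq_part
  choose! lo hi hG h1 h1' using hgood
  obtain ⟨S', hS'⟩ : ∃ S' : Finset ℕ, S' = (Icc 10 R).filter fun r => ¬ IsSquare r := ⟨_, rfl⟩
  have hS1 : ∀ r ∈ S', ¬ IsSquare r ∧ 10 ≤ r := by
    intro r hr
    rw [hS', mem_filter, mem_Icc] at hr
    exact ⟨hr.2, hr.1.1⟩
  obtain ⟨wid, hwid⟩ : ∃ wid : ℕ → ℝ, wid = fun r => min (1 - hi r) (1 - lo r) := ⟨_, rfl⟩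
  have hw0 : ∀ r ∈ S', 0 < wid r := by
    intro r hr
    obtain ⟨hns, hr10⟩ := hS1 r hr
    rw [hwid]
    exact lt_min (by linarith [h1' r hr10 hns]) (by linarith [h1 r hr10 hns])
  have hsf1 : ∀ r ∈ S', sf r ≠ 1 := by
    intro r hr h
    obtain ⟨hns, -⟩ := hS1 r hr
    apply hns
    refine ⟨kk r, ?_⟩
    have := hkk r
    rw [h, mul_one, pow_two] at this
    exact this.symm
  have hsqk : ∀ r : ℕ, √(r : ℝ) = kk r * √(sf r : ℝ) := by
    intro r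
    have e : (r : ℝ) = (kk r : ℝ) ^ 2 * (sf r : ℝ) := by exact_mod_cast (hkk r).symm
    conv_lhs => rw [e]
    rw [Real.sqrt_mul (by positivity), Real.sqrt_sq (Nat.cast_nonneg _)]
  obtain ⟨η, hη0, hη⟩ := exists_small S' wid (fun r => (kk r : ℝ)) hw0 fun _ _ => Nat.cast_nonneg _
  obtain ⟨m0, hm0⟩ := kron_sqrt (S'.image sf) (by
    intro s hs
    rw [mem_image] at hs
    obtain ⟨r, hr, rfl⟩ := hs
    exact ⟨hsf r, hsf1 r hr⟩) (fun s => (0 - √(s : ℝ)) / 2) (ε := η / 4) (by linarith)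
  obtain ⟨K, hK⟩ := exists_nat_gt (4 / η)
  have hK0 : 0 < K := by
    have : (0 : ℝ) < K := lt_trans (by positivity) hK
    exact_mod_cast this
  have hKR : (0 : ℝ) < K := by exact_mod_cast hK0
  have hKη : (1 : ℝ) / K ≤ η / 4 := by
    rw [div_lt_iff₀ hη0] at hK
    rw [div_le_iff₀ hKR]
    linarith
  obtain ⟨B, hB⟩ := Pool.Agent.K7.H55.SY.recur
    (fun i : {s : ℕ // s ∈ S'.image sf} => √((i : ℕ) : ℝ)) hK0
  refine ⟨m0 + B + 1, fun M => ?_⟩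
  obtain ⟨h, hh1, hh2, hh3⟩ := hB M
  refine ⟨m0 + h, by omega, by omega, fun r hr10 hr => ?_⟩
  by_cases hsq : IsSquare r
  · intro L _ _
    obtain ⟨F, hF, hF'⟩ := coll_start (m := m0 + h) hr10 (Or.inr hsq) L
    exact ⟨F, hF, fun c a hc d => hF' c a hc d⟩
  have hrR : r ≤ R := by
    rcases hr with hr | hr
    · exact hr
    · exact absurd hr hsq
  have hr' : r ∈ S' := by rw [hS', mem_filter, mem_Icc]; exact ⟨⟨hr10, hrR⟩, hsq⟩
  obtain ⟨n, hn⟩ := hm0 (sf r) (mem_image_of_mem _ hr')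
  obtain ⟨k, hk⟩ := hh3 ⟨sf r, mem_image_of_mem _ hr'⟩
  obtain ⟨e1, he1⟩ : ∃ e1 : ℝ, e1 = (m0 : ℝ) * √(sf r : ℝ) - (0 - √(sf r : ℝ)) / 2 - n := ⟨_, rfl⟩
  obtain ⟨e2, he2⟩ : ∃ e2 : ℝ, e2 = (h : ℝ) * √(sf r : ℝ) - k := ⟨_, rfl⟩
  have hn' : |e1| < η / 4 := by rw [he1]; exact hn
  have hk' : |e2| ≤ η / 4 := by rw [he2]; exact hk.trans hKη
  refine all_of_avoid (w := wid r) (c := 0) (δ := kk r * (2 * (e1 + e2))) (hG r hr10 hsq)
    ((kk r : ℤ) * (n + k)) ?_ ?_ ?_ ?_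
  · rw [hsqk r, he1, he2]
    push_cast
    ring
  · rw [abs_mul, Nat.abs_cast]
    refine lt_of_le_of_lt ?_ (hη r hr')
    refine mul_le_mul_of_nonneg_left ?_ (Nat.cast_nonneg _)
    rw [abs_mul, abs_two]
    have := abs_add_le e1 e2
    linarith
  · rw [hwid, sub_zero]
    exact min_le_left _ _
  · rw [hwid, add_zero]
    exact min_le_right _ _

end Pool.Agent.K7.H55.AN
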