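import Pool.Agent.K7.H8.RE.Win
import Pool.Agent.K7.H55.AN.Tog2
import Pool.Agent.K7.H55.AN.Pow2

set_option autoImplicit false

/-! Windows of half length below `1` for every number `r ≥ 10` of points (those of
`Pool.Agent.K7.H8.RE` for `17 ≤ r ≤ 27`), and all numbers up to a bound at once. -/

namespace Pool.Agent.K7.H55.AN

open Finset Pool.Agent.H932R2 Pool.Agent.H932R3 Pool.Agent.TH183.QS

universe u

theorem good_all {r : ℕ} (hr : 10 ≤ r) (hsq : ¬ IsSquare r) :
    ∃ lo hi : ℝ, Good.{u} r lo hi ∧ lo < 1 ∧ hi < 1 := by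
  by_cases hE : Exc r
  · have key : ∀ l u : ℕ, (r, l, u) ∈ Pool.Agent.K7.H8.RE.tableW → l < 1000 → u < 1000 →
        ∃ lo hi : ℝ, Good.{u} r lo hi ∧ lo < 1 ∧ hi < 1 := by
      intro l u h hl hu
      refine ⟨_, _, Pool.Agent.K7.H8.RE.good_tab h, ?_, ?_⟩
      · have : (l : ℝ) < 1000 := by exact_mod_cast hl
        linarith
      · have : (u : ℝ) < 1000 := by exact_mod_cast hu
        linarith
    have hr' : r = 17 ∨ r = 18 ∨ r = 19 ∨ r = 20 ∨ r = 21 ∨ r = 22 ∨ r = 23 ∨ r = 24 ∨ r = 26 ∨ r = 27 := by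
      unfold Exc at hE
      omega
    rcases hr' with h | h | h | h | h | h | h | h | h | h
    · exact key 843 465 (by rw [h]; decide) (by norm_num) (by norm_num)
    · exact key 967 553 (by rw [h]; decide) (by norm_num) (by norm_num)
    · exact key 960 620 (by rw [h]; decide) (by norm_num) (by norm_num)
    · exact key 960 589 (by rw [h]; decide) (by norm_num) (by norm_num)
    · exact key 965 528 (by rw [h]; decide) (by norm_num) (by norm_num)
    · exact key 960 596 (by rw [h]; decide) (by norm_num) (by norm_num)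
    · exact key 965 547 (by rw [h]; decide) (by norm_num) (by norm_num)
    · exact key 884 475 (by rw [h]; decide) (by norm_num) (by norm_num)
    · exact key 809 416 (by rw [h]; decide) (by norm_num) (by norm_num)
    · exact key 792 407 (by rw [h]; decide) (by norm_num) (by norm_num)
  · obtain ⟨lo, hi, hG, -, -, -, h⟩ := exists_good.{u} hr
    exact ⟨lo, hi, hG, h hE⟩

/-- **All numbers of points up to `R`, and all squares, at once**: bounded gaps. -/
theorem together_R (R : ℕ) :
    ∃ B : ℕ, ∀ M : ℕ, ∃ m : ℕ, M ≤ m ∧ m < M + B ∧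
      ∀ r : ℕ, 10 ≤ r → (r ≤ R ∨ IsSquare r) → All.{u} r m :=
  together_all (fun _ hr hsq => good_all hr hsq) R

end Pool.Agent.K7.H55.AN
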