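import Pool.Agent.H383.LinIndep
import Pool.Agent.Helper352.Kron
import Pool.Agent.K7.H55.SY.Bohr

set_option autoImplicit false

/-! Inhomogeneous approximation to the square roots of squarefree numbers. -/

namespace Pool.Agent.K7.H55.AN

open Finset

theorem kron_sqrt (T : Finset ℕ) (hT : ∀ s ∈ T, Squarefree s ∧ s ≠ 1) (β : ℕ → ℝ) {ε : ℝ}
    (hε : 0 < ε) : ∃ m : ℕ, ∀ s ∈ T, ∃ n : ℤ, |(m : ℝ) * √(s : ℝ) - β s - n| < ε := by
  classical
  obtain ⟨C, hC⟩ : ∃ C : ℝ, C = ∑ s ∈ T, √(s : ℝ) := ⟨_, rfl⟩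
  have hC0 : 0 ≤ C := by rw [hC]; exact sum_nonneg fun s _ => Real.sqrt_nonneg _
  have hCs : ∀ s ∈ T, √(s : ℝ) ≤ C := fun s hs => by
    rw [hC]
    exact single_le_sum (f := fun s : ℕ => √(s : ℝ)) (fun s _ => Real.sqrt_nonneg _) hs
  obtain ⟨ε1, hε1⟩ : ∃ ε1 : ℝ, ε1 = min (ε / (1 + C)) (1 / 2) := ⟨_, rfl⟩
  have hε10 : 0 < ε1 := by rw [hε1]; exact lt_min (by positivity) (by norm_num)
  have hε12 : ε1 ≤ 1 / 2 := by rw [hε1]; exact min_le_right _ _
  have hε13 : ε1 * (1 + C) ≤ ε := by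
    rw [← le_div_iff₀ (by linarith), hε1]
    exact min_le_left _ _
  obtain ⟨T', hT'⟩ : ∃ T' : Finset ℕ, T' = insert 1 T := ⟨_, rfl⟩
  have hsf : ∀ i : {s : ℕ // s ∈ T'}, Squarefree (i : ℕ) := by
    rintro ⟨s, hs⟩
    rw [hT', mem_insert] at hs
    rcases hs with rfl | hs
    · exact squarefree_one
    · exact (hT s hs).1
  have hind := Pool.Agent.H383.Gauss.sf_indep.comp (fun i : {s : ℕ // s ∈ T'} => (⟨(i : ℕ), hsf i⟩ : {s : ℕ // Squarefree s}))
    (fun i j h => Subtype.ext (congrArg (fun x : {s : ℕ // Squarefree s} => (x : ℕ)) h))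
  rw [Fintype.linearIndependent_iff] at hind
  obtain ⟨t, ht, h⟩ := Pool.Agent.Helper352.kronecker (ι := {s : ℕ // s ∈ T'}) (fun i => √((i : ℕ) : ℝ))
    (fun i => if (i : ℕ) = 1 then 0 else β i) (by
      intro c hc
      refine ⟨0, ?_⟩
      have h0 : ∀ i, ((c i : ℤ) : ℚ) = 0 := by
        refine hind (fun i => ((c i : ℤ) : ℚ)) ?_
        rw [← hc]
        refine sum_congr rfl fun i _ => ?_
        rw [Rat.smul_def]
        push_cast
        rfl
      have h1 : ∀ i, c i = 0 := fun i => by exact_mod_cast h0 i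
      simp [h1]) ε1 hε10 1
  obtain ⟨n, hn⟩ := h ⟨1, by rw [hT']; exact mem_insert_self _ _⟩
  simp only [Nat.cast_one, Real.sqrt_one, mul_one, if_true, sub_zero] at hn
  obtain ⟨hn1, hn2⟩ := abs_lt.1 hn
  have hn0 : (0 : ℤ) ≤ n := by
    have : (0 : ℝ) < n := by linarith
    exact_mod_cast this.le
  obtain ⟨m, rfl⟩ := Int.eq_ofNat_of_zero_le hn0
  refine ⟨m, fun s hs => ?_⟩
  obtain ⟨k, hk⟩ := h ⟨s, by rw [hT']; exact mem_insert_of_mem hs⟩
  simp only [if_neg (hT s hs).2] at hk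
  refine ⟨k, ?_⟩
  rw [Int.cast_natCast] at hn1 hn2 hn
  have e : (m : ℝ) * √(s : ℝ) - β s - k = (t * √(s : ℝ) - β s - k) - (t - m) * √(s : ℝ) := by ring
  rw [e]
  have h2 : |(t - m) * √(s : ℝ)| ≤ ε1 * C := by
    rw [abs_mul, abs_of_nonneg (Real.sqrt_nonneg _)]
    exact mul_le_mul hn.le (hCs s hs) (Real.sqrt_nonneg _) hε10.le
  calc |t * √(s : ℝ) - β s - k - (t - m) * √(s : ℝ)|
      ≤ |t * √(s : ℝ) - β s - k| + |(t - m) * √(s : ℝ)| := abs_sub _ _
    _ < ε1 + ε1 * C := add_lt_add_of_lt_of_le hk h2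
    _ = ε1 * (1 + C) := by ring
    _ ≤ ε := hε13

theorem exists_small (S : Finset ℕ) (w c : ℕ → ℝ) (hw : ∀ r ∈ S, 0 < w r) (hc : ∀ r ∈ S, 0 ≤ c r) :
    ∃ η : ℝ, 0 < η ∧ ∀ r ∈ S, c r * η < w r := by
  classical
  induction S using Finset.induction_on with
  | empty => exact ⟨1, one_pos, fun r hr => absurd hr (notMem_empty r)⟩
  | insert a S ha ih =>
    obtain ⟨η, h1, h2⟩ := ih (fun r hr => hw r (mem_insert_of_mem hr))
      (fun r hr => hc r (mem_insert_of_mem hr))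
    have hwa := hw a (mem_insert_self a S)
    have hca := hc a (mem_insert_self a S)
    refine ⟨min η (w a / (c a + 1)), lt_min h1 (by positivity), fun r hr => ?_⟩
    rw [mem_insert] at hr
    rcases hr with rfl | hr
    · have h3 := mul_le_mul_of_nonneg_left (min_le_right η (w r / (c r + 1))) hca
      refine lt_of_le_of_lt h3 ?_
      rw [mul_div_assoc', div_lt_iff₀ (by linarith)]
      nlinarith
    · exact lt_of_le_of_lt (mul_le_mul_of_nonneg_left (min_le_left _ _) (hc r (mem_insert_of_mem hr)))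
        (h2 r hr)

end Pool.Agent.K7.H55.AN
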