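import Pool.Agent.TH183.QS.Fin

set_option autoImplicit false

/-! Sharper row bounds for the slopes `3 √n`, `28 ≤ n ≤ 45`, and an emptiness window of length less
than one. -/

namespace Pool.Agent.K7.H55.AN

open Finset Pool.Agent.TH176.Nag Pool.Agent.TH603.Sur Pool.Agent.TH183.QC Pool.Agent.TH183.QS
open Pool.Agent.TH183.QN (TT)
open Pool.Agent.TH641.NW (U ell Lam NN up_top U_empty ell_row NN_up NN_up3 Lam_sub exists_hQ card_le_NN)

theorem up_row3 {x Y K : ℝ} (hK1 : 15.87 ≤ K) (hK2 : K ≤ 20.35) (hY : K ≤ Y) {B : Finset ℤ}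
    (hB : ∀ c ∈ B, c ∈ U x Y K) : (B.card : ℝ) ≤ ell Y K + K / 6 - 1 / 20 := by
  have hK : 9 ≤ K := by linarith
  obtain ⟨h, Q, hhQ, hQ1, hQ2, -, h2, h3, -⟩ := exists_hQ hK (by linarith : 0 ≤ Y)
  have h4 := card_le_NN (x := x) hK hhQ hQ1 hQ2 hB
  have h5 : (B.card : ℝ) ≤ (NN x Y K h Q : ℝ) := by exact_mod_cast h4
  have h6 := NN_up (x := x) (Y := Y) (K := K) hhQ
  have h7 := NN_up3 (x := x) (Y := Y) (K := K) hhQ h2
  have h8 := Lam_sub (Y := Y) (K := K) hhQ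
  have h3' := h3 hY
  obtain ⟨q, hq⟩ : ∃ q : ℝ, q = K - (Y - 9 * h) := ⟨_, rfl⟩
  obtain ⟨r, hr⟩ : ∃ r : ℝ, r = Y - 9 * Q := ⟨_, rfl⟩
  obtain ⟨g, hg⟩ : ∃ g : ℕ, Q = h + g := ⟨Q - h, by omega⟩
  have hgR : (Q : ℝ) - h = g := by rw [hg]; push_cast; ring
  have hKg : K = q + r + 9 * g := by rw [hq, hr, ← hgR]; ring
  have hr0 : 0 ≤ r := by rw [hr]; linarith
  have hr9 : r < 9 := by rw [hr]; linarith
  have hq0 : 0 < q := by rw [hq]; linarith
  have hq9 : q ≤ 9 := by rw [hq]; linarith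
  rw [← hq, ← hr] at h8
  rw [hgR] at h6 h7
  rw [← hq] at h7
  have hg3 : g < 3 := by
    by_contra hcon
    have : (3 : ℝ) ≤ g := by exact_mod_cast (not_lt.1 hcon)
    linarith
  interval_cases g
  · -- `g = 0`
    push_cast at h6 h7 hKg
    have e : r = K - q := by linarith
    subst e
    nlinarith [mul_nonneg (sub_nonneg.2 hq9) (sub_nonneg.2 hr9.le)]
  · push_cast at h6 h7 hKg
    have e : r = K - q - 9 := by linarith
    subst e
    rcases le_or_gt 1 q with h1q | h1q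
    · rcases le_or_gt K 18 with h18 | h18
      · nlinarith [mul_nonneg (sub_nonneg.2 h1q) (sub_nonneg.2 h18)]
      · nlinarith [mul_nonneg (sub_nonneg.2 hq9) (sub_nonneg.2 h18.le)]
    · nlinarith [mul_nonneg (sub_nonneg.2 h1q.le) (by linarith : (0:ℝ) ≤ K - 9)]
  · push_cast at h6 h7 hKg
    have e : r = K - q - 18 := by linarith
    subst e
    rcases le_or_gt 1 q with h1q | h1q
    · nlinarith [mul_nonneg (sub_nonneg.2 h1q) hr0]
    · nlinarith [mul_nonneg (sub_nonneg.2 h1q.le) hr0]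

end Pool.Agent.K7.H55.AN
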