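import Pool.Agent.K7.H55.AN.Win
import Pool.Agent.K7.H55.AN.Kron

set_option autoImplicit false

/-! Multiplicities for which many numbers of points are settled in every degree. -/

namespace Pool.Agent.K7.H55.AN

open Finset Pool.Agent.H932R2 Pool.Agent.H932R3 Pool.Agent.TH183.QS

universe u

/-- the expected dimension in every degree, every field of characteristic zero -/
def All (r m : ℕ) : Prop := ∀ (L : Type u) [Field L] [CharZero L],
    ∃ F : MvPolynomial (Fin (r + 1)) L, F ≠ 0 ∧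
      ∀ (c : L) (a : Fin r → L), MvPolynomial.eval (Fin.cons c a : Fin (r + 1) → L) F ≠ 0 →
        ∀ d : ℕ, JetDim r m c a d

theorem all_of_avoid {r m : ℕ} {lo hi c δ w : ℝ} (hG : Good.{u} r lo hi) (N : ℤ)
    (hy : √(r : ℝ) * (2 * m + 1) = c + 2 * N + δ) (hδ : |δ| < w) (h1 : w ≤ 1 - c - hi)
    (h2 : w ≤ 1 - lo + c) : All.{u} r m := by
  intro L _ _
  obtain ⟨F, hF, hF'⟩ := hG m L
  refine ⟨F, hF, fun c' a hc d => hF' c' a hc d ?_⟩
  rw [hy]
  obtain ⟨h3, h4⟩ := abs_lt.1 hδ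
  rcases le_or_gt (2 * (d : ℤ) + 3) (2 * N) with h | h
  · left
    have h5 : 2 * (d : ℤ) + 3 ≤ 2 * N - 1 := by omega
    have h6 : (2 * (d : ℝ) + 3) ≤ 2 * N - 1 := by exact_mod_cast h5
    linarith
  · right
    have h5 : 2 * N + 1 ≤ 2 * (d : ℤ) + 3 := by omega
    have h6 : (2 * (N : ℝ) + 1) ≤ 2 * d + 3 := by exact_mod_cast h5
    linarith

theorem sq_part (r : ℕ) : ∃ s b : ℕ, b ^ 2 * s = r ∧ Squarefree s := Nat.sq_mul_squarefree r

/-- **Many numbers of points at once.** -/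
theorem together (S : Finset ℕ) (hS : ∀ r ∈ S, 10 ≤ r)
    (hE : ∀ r ∈ S, Exc r → ∀ r' ∈ S, IsSquare (r * r') → r' = r) :
    ∃ B : ℕ, ∀ M : ℕ, ∃ m : ℕ, M ≤ m ∧ m < M + B ∧
      ∀ r : ℕ, (r ∈ S ∨ (10 ≤ r ∧ IsSquare r)) → All.{u} r m := by
  classical
  choose sf kk hkk hsf using sq_part
  choose! lo hi hG h0 h0' h2 h1 using fun (r : ℕ) (hr : 10 ≤ r) => exists_good.{u} hr
  obtain ⟨S', hS'⟩ : ∃ S' : Finset ℕ, S' = S.filter fun r => ¬ IsSquare r := ⟨_, rfl⟩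
  have hS1 : ∀ r ∈ S', r ∈ S ∧ ¬ IsSquare r ∧ 10 ≤ r := by
    intro r hr
    rw [hS', mem_filter] at hr
    exact ⟨hr.1, hr.2, hS r hr.1⟩
  obtain ⟨cen, hcen⟩ : ∃ cen : ℕ → ℝ, cen = fun r => if Exc r then (lo r - hi r) / 2 else 0 := ⟨_, rfl⟩
  obtain ⟨wid, hwid⟩ : ∃ wid : ℕ → ℝ, wid = fun r => min (1 - cen r - hi r) (1 - lo r + cen r) :=
    ⟨_, rfl⟩
  have hw0 : ∀ r ∈ S', 0 < wid r := by
    intro r hr
    obtain ⟨-, -, hr10⟩ := hS1 r hr
    rw [hwid]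
    have e2 := h2 r hr10
    have e1 := h1 r hr10
    refine lt_min ?_ ?_
    · rw [hcen]
      beta_reduce
      split_ifs with h
      · linarith
      · linarith [(e1 h).2]
    · rw [hcen]
      beta_reduce
      split_ifs with h
      · linarith
      · linarith [(e1 h).1]
  have hk0 : ∀ r ∈ S', 0 < kk r := by
    intro r hr
    obtain ⟨-, -, hr10⟩ := hS1 r hr
    have := hkk r
    rcases Nat.eq_zero_or_pos (kk r) with h | h
    · rw [h] at this
      simp at this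
      omega
    · exact h
  have hsf1 : ∀ r ∈ S', sf r ≠ 1 := by
    intro r hr h
    obtain ⟨-, hns, -⟩ := hS1 r hr
    apply hns
    refine ⟨kk r, ?_⟩
    have := hkk r
    rw [h, mul_one, pow_two] at this
    exact this.symm
  have hsqk : ∀ r : ℕ, √(r : ℝ) = kk r * √(sf r : ℝ) := by
    intro r
    have e : (r : ℝ) = (kk r : ℝ) ^ 2 * (sf r : ℝ) := by exact_mod_cast (hkk r).symm
    conv_lhs => rw [e]
    rw [Real.sqrt_mul (by positivity), Real.sqrt_sq (Nat.cast_nonneg _)]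
  have huniq : ∀ r ∈ S', Exc r → ∀ r' ∈ S', sf r = sf r' → r' = r := by
    intro r hr hEr r' hr' h
    refine hE r (hS1 r hr).1 hEr r' (hS1 r' hr').1 ⟨kk r * kk r' * sf r, ?_⟩
    have e1 := hkk r
    have e2 := hkk r'
    rw [← h] at e2
    calc r * r' = (kk r ^ 2 * sf r) * (kk r' ^ 2 * sf r) := by rw [e1, e2]
      _ = kk r * kk r' * sf r * (kk r * kk r' * sf r) := by ring
  -- the targets
  obtain ⟨β, hβ⟩ : ∃ β : ℕ → ℝ, ∀ r ∈ S', kk r * β (sf r) = cen r := by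
    have hex : ∀ s : ℕ, ∃ b : ℝ, ∀ r ∈ S', sf r = s → kk r * b = cen r := by
      intro s
      by_cases h : ∃ r ∈ S', Exc r ∧ sf r = s
      · obtain ⟨r0, hr0, hE0, rfl⟩ := h
        refine ⟨cen r0 / kk r0, fun r hr hrs => ?_⟩
        have := huniq r0 hr0 hE0 r hr hrs.symm
        subst this
        have : (kk r : ℝ) ≠ 0 := by exact_mod_cast (hk0 r hr0).ne'
        field_simp
      · push Not at h
        refine ⟨0, fun r hr hrs => ?_⟩
        rw [mul_zero, hcen]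
        beta_reduce
        rw [if_neg fun hEr => h r hr hEr hrs]
    choose b hb using hex
    exact ⟨b, fun r hr => hb (sf r) r hr rfl⟩
  obtain ⟨η, hη0, hη⟩ := exists_small S' wid (fun r => (kk r : ℝ)) hw0 fun _ _ => Nat.cast_nonneg _
  obtain ⟨m0, hm0⟩ := kron_sqrt (S'.image sf) (by
    intro s hs
    rw [mem_image] at hs
    obtain ⟨r, hr, rfl⟩ := hs
    exact ⟨hsf r, hsf1 r hr⟩) (fun s => (β s - √(s : ℝ)) / 2) (ε := η / 4) (by linarith)
  obtain ⟨K, hK⟩ := exists_nat_gt (4 / η)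
  have hK0 : 0 < K := by
    have : (0 : ℝ) < K := lt_trans (by positivity) hK
    exact_mod_cast this
  have hKR : (0 : ℝ) < K := by exact_mod_cast hK0
  have hKη : (1 : ℝ) / K ≤ η / 4 := by
    rw [div_lt_iff₀ hη0] at hK
    rw [div_le_iff₀ hKR]
    linarith
  obtain ⟨B, hB⟩ := Pool.Agent.K7.H55.SY.recur
    (fun i : {s : ℕ // s ∈ S'.image sf} => √((i : ℕ) : ℝ)) hK0
  refine ⟨m0 + B + 1, fun M => ?_⟩
  obtain ⟨h, hh1, hh2, hh3⟩ := hB M
  refine ⟨m0 + h, by omega, by omega, fun r hr => ?_⟩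
  by_cases hsq : IsSquare r
  · have hr10 : 10 ≤ r := by
      rcases hr with hr | hr
      · exact hS r hr
      · exact hr.1
    intro L _ _
    obtain ⟨F, hF, hF'⟩ := coll_start (m := m0 + h) hr10 (Or.inr hsq) L
    exact ⟨F, hF, fun c a hc d => hF' c a hc d⟩
  have hrS : r ∈ S := by
    rcases hr with hr | hr
    · exact hr
    · exact absurd hr.2 hsq
  have hr' : r ∈ S' := by rw [hS', mem_filter]; exact ⟨hrS, hsq⟩
  obtain ⟨-, -, hr10⟩ := hS1 r hr'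
  obtain ⟨n, hn⟩ := hm0 (sf r) (mem_image_of_mem _ hr')
  obtain ⟨k, hk⟩ := hh3 ⟨sf r, mem_image_of_mem _ hr'⟩
  obtain ⟨e1, he1⟩ : ∃ e1 : ℝ, e1 = (m0 : ℝ) * √(sf r : ℝ) - (β (sf r) - √(sf r : ℝ)) / 2 - n := ⟨_, rfl⟩
  obtain ⟨e2, he2⟩ : ∃ e2 : ℝ, e2 = (h : ℝ) * √(sf r : ℝ) - k := ⟨_, rfl⟩
  have hn' : |e1| < η / 4 := by rw [he1]; exact hn
  have hk' : |e2| ≤ η / 4 := by rw [he2]; exact hk.trans hKη
  refine all_of_avoid (w := wid r) (c := cen r) (δ := kk r * (2 * (e1 + e2))) (hG r hr10)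
    ((kk r : ℤ) * (n + k)) ?_ ?_ ?_ ?_
  · rw [hsqk r, ← hβ r hr', he1, he2]
    push_cast
    ring
  · rw [abs_mul, Nat.abs_cast]
    refine lt_of_le_of_lt ?_ (hη r hr')
    refine mul_le_mul_of_nonneg_left ?_ (Nat.cast_nonneg _)
    rw [abs_mul, abs_two]
    have := abs_add_le e1 e2
    linarith
  · rw [hwid]; exact min_le_left _ _
  · rw [hwid]; exact min_le_right _ _

end Pool.Agent.K7.H55.AN
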