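import Pool.Agent.K7.H55.AN.Rows

set_option autoImplicit false

/-! Emptiness windows of length less than one for `28 ≤ r ≤ 45`, and the windows for general collisions. -/

namespace Pool.Agent.K7.H55.AN

open Finset Pool.Agent.TH176.Nag Pool.Agent.TH603.Sur Pool.Agent.TH183.QC Pool.Agent.TH183.QS
open Pool.Agent.H932R2 Pool.Agent.H932R3
open Pool.Agent.TH183.QN (TT)
open Pool.Agent.TH641.NW (U ell up_top U_empty ell_row)

universe u

theorem core28 {w : ES} (key : KeyE w) {n Z : ℕ} (hn1 : 28 ≤ n) (hn2 : n ≤ 45)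
    (h0 : EmpA w (Cl (Z : ℝ) (n : ℝ))) {d J : ℕ}
    (h1 : √(n : ℝ) * (d + 3 / 2) + √(n : ℝ) / 2 - 1 / 20 < ((Z : ℕ) : ℝ) + n / 2)
    (hJ1 : √(n : ℝ) * J ≤ d) (hJ2 : (d : ℝ) < √(n : ℝ) * (J + 1))
    (htop : (3 * d - 3 * √(n : ℝ) * J) ^ 2 / 18 + 11 / 18 * (3 * d - 3 * √(n : ℝ) * J) + 17 / 8 +
      ((n : ℝ) - 1) * J ≤ ((Z : ℕ) : ℝ)) : EmpA w (TT d) := by
  classical
  have hnR : (28 : ℝ) ≤ n := by exact_mod_cast hn1
  have hnR2 : (n : ℝ) ≤ 45 := by exact_mod_cast hn2
  have hs : √(n : ℝ) * √(n : ℝ) = n := Real.mul_self_sqrt (by linarith)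
  have hs1 : 5.2915 ≤ √(n : ℝ) := Real.le_sqrt_of_sq_le (by norm_num; linarith)
  have hs2 : √(n : ℝ) ≤ 6.7083 := Real.sqrt_le_iff.2 ⟨by norm_num, by norm_num; linarith⟩
  have eK : (3 * √(n : ℝ)) ^ 2 = 9 * n := by rw [mul_pow, sq (√(n : ℝ)), hs]; ring
  have hσ : ((n - 1 : ℕ) : ℝ) = n - 1 := by
    rw [Nat.cast_sub (by omega)]; push_cast; ring
  have hK0 : 0 ≤ 3 * √(n : ℝ) := by linarith
  refine EmpA_pl key (K := 3 * √(n : ℝ)) hK0 (n' := (n : ℝ)) (Z' := ((Z : ℕ) : ℝ))
    (σ := n - 1) (J := J) (ρ := fun j => if j < J then ((Z : ℕ) : ℝ) - 1 - n * j else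
    if j = J then (3 * d - 3 * √(n : ℝ) * J) ^ 2 / 18 + 11 / 18 * (3 * d - 3 * √(n : ℝ) * J) + 17 / 8
      else 0) ?_ ?_ ?_ ?_ ?_ ?_
  · rw [hσ]; linarith
  · intro x j B hB
    split_ifs with h2 h3
    · have h3 : (j : ℝ) + 1 ≤ J := by exact_mod_cast h2
      have h4 := mul_le_mul_of_nonneg_left h3 hK0
      have h5 := up_row3 (x := x) (K := 3 * √(n : ℝ)) (by linarith) (by linarith) (by linarith) hB
      rw [ell_row, eK] at h5
      have h6 : (B.card : ℝ) < (((Z : ℕ) : ℤ) - n * j : ℤ) := by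
        push_cast
        push_cast at h1
        linarith
      have h7 : (B.card : ℤ) < ((Z : ℕ) : ℤ) - n * j := by exact_mod_cast h6
      have h8 : (B.card : ℤ) ≤ ((Z : ℕ) : ℤ) - 1 - n * j := by omega
      exact_mod_cast h8
    · subst h3
      exact up_top (by linarith) (by linarith) (by linarith) hB
    · have h3 : (J : ℝ) + 1 ≤ j := by exact_mod_cast (by omega : J + 1 ≤ j)
      have h4 := mul_le_mul_of_nonneg_left h3 hK0
      have h5 : B = ∅ := by
        rw [Finset.eq_empty_iff_forall_notMem]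
        exact fun c hc => U_empty (by linarith) (hB c hc)
      rw [h5]; simp
  · intro j hj
    simp only [if_pos hj]
    rw [hσ]
    linarith
  · simp only [lt_irrefl, if_false, if_true]
    rw [hσ]
    exact htop
  · intro j hj
    simp only [if_neg (not_lt.2 hj.le), if_neg (show ¬ j = J by omega)]
    norm_num
  · exact h0

/-- emptiness for multiplicities which are not small -/
theorem empAt28 {n m d : ℕ} (hn1 : 28 ≤ n) (hn2 : n ≤ 45) (hm : (n : ℝ) - 6 * √(n : ℝ) + 10 ≤ m)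
    (h1 : √(n : ℝ) * (d + 3 / 2) + √(n : ℝ) / 2 - 1 / 20 < n * m + n / 2) :
    EmpAt n m d := by
  have hnR : (28 : ℝ) ≤ n := by exact_mod_cast hn1
  have hnR2 : (n : ℝ) ≤ 45 := by exact_mod_cast hn2
  obtain ⟨s, hsdef⟩ : ∃ s, s = √(n : ℝ) := ⟨_, rfl⟩
  have hs : s * s = n := by rw [hsdef]; exact Real.mul_self_sqrt (by linarith)
  have hs1 : 5.2915 ≤ s := by rw [hsdef]; exact Real.le_sqrt_of_sq_le (by norm_num; linarith)
  have hs2 : s ≤ 6.7083 := by
    rw [hsdef]; exact Real.sqrt_le_iff.2 ⟨by norm_num, by norm_num; linarith⟩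
  have hs0 : 0 < s := by linarith
  rcases lt_or_ge (s * d) ((n : ℝ) * m) with hlt | hge
  · refine empAt_nagata (by omega) ?_
    rw [← hsdef]
    have h3 : s * (d : ℝ) < s * (m * s) := by
      calc s * (d : ℝ) < (n : ℝ) * m := hlt
        _ = s * (m * s) := by rw [← hs]; ring
    exact lt_of_mul_lt_mul_left h3 hs0.le
  · rw [← hsdef] at hm h1
    have h2 : s * m ≤ d := by
      have h3 : s * (s * m) ≤ s * d := by rw [← mul_assoc, hs]; exact hge
      exact le_of_mul_le_mul_left h3 hs0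
    have h3 : (d : ℝ) + 1.99 ≤ s * m + s / 2 := by
      have h4 : s * ((d : ℝ) + 1.99) ≤ s * (s * m + s / 2) := by
        have e : s * (s * m + s / 2) = n * m + n / 2 := by rw [← hs]; ring
        rw [e]; linarith
      exact le_of_mul_le_mul_left h4 hs0
    have hW : ((n * m : ℕ) : ℝ) = n * m := by push_cast; ring
    refine EmpAt.of (core28 (keyE n m) (Z := n * m) hn1 hn2 (es_cl n m) (J := m) ?_ ?_ ?_ ?_)
    · rw [← hsdef, hW]; exact h1
    · rw [← hsdef]; exact h2
    · rw [← hsdef]; linarith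
    · rw [← hsdef, hW]
      obtain ⟨Y, hY⟩ : ∃ Y : ℝ, Y = 3 * d - 3 * s * m := ⟨_, rfl⟩
      have hY0 : 0 ≤ Y := by rw [hY]; linarith
      have hY1 : Y ≤ 1.5 * s - 5.97 := by rw [hY]; linarith
      rw [← hY]
      have h8 := pow_le_pow_left₀ hY0 hY1 2
      rw [← hs] at hm
      rw [← hs]
      nlinarith

/-- the windows `lo`, `hi` for `r` points: every field of characteristic zero -/
def Good (r : ℕ) (lo hi : ℝ) : Prop := ∀ (m : ℕ) (L : Type u) [Field L] [CharZero L],
    ∃ F : MvPolynomial (Fin (r + 1)) L, F ≠ 0 ∧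
      ∀ (c : L) (a : Fin r → L), MvPolynomial.eval (Fin.cons c a : Fin (r + 1) → L) F ≠ 0 →
        ∀ d : ℕ, 2 * (d : ℝ) + 3 + lo < √(r : ℝ) * (2 * m + 1) ∨
          √(r : ℝ) * (2 * m + 1) + hi < 2 * (d : ℝ) + 3 → JetDim r m c a d

theorem good28 {r : ℕ} (hr1 : 28 ≤ r) (hr2 : r ≤ 45) :
    Good.{u} r (1 - 1 / (10 * √(r : ℝ))) (2 / 3 + 1 / (4 * √(r : ℝ))) := by
  intro m L _ _
  rcases le_or_gt (m : ℝ) (r - 6 * √(r : ℝ) + 11) with hsm | hlg
  · obtain ⟨F, hF, hF'⟩ := coll_start (by omega) (Or.inl hsm) L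
    exact ⟨F, hF, fun c a hc d _ => hF' c a hc d⟩
  have hrR : (28 : ℝ) ≤ r := by exact_mod_cast hr1
  obtain ⟨s, hs⟩ : ∃ s, s = √(r : ℝ) := ⟨_, rfl⟩
  have hss : s * s = r := by rw [hs]; exact Real.mul_self_sqrt (by linarith)
  have hs3 : 5 ≤ s := by rw [hs]; exact Real.le_sqrt_of_sq_le (by norm_num; linarith)
  have hs0 : 0 < s := by linarith
  obtain ⟨PL, hPL⟩ : ∃ PL : ℕ → Prop, PL = fun d : ℕ =>
      2 * (d : ℝ) + 3 + (1 - 1 / (10 * √(r : ℝ))) < √(r : ℝ) * (2 * m + 1) := ⟨_, rfl⟩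
  obtain ⟨PH, hPH⟩ : ∃ PH : ℕ → Prop, PH = fun d : ℕ =>
      √(r : ℝ) * (2 * m + 1) + (2 / 3 + 1 / (4 * √(r : ℝ))) < 2 * (d : ℝ) + 3 := ⟨_, rfl⟩
  have k1 : ∃ N : ℕ, ∀ d, PL d → d ≤ N := by
    refine ⟨⌈√(r : ℝ) * (2 * m + 1)⌉₊, fun d hd => ?_⟩
    rw [hPL] at hd
    beta_reduce at hd
    rw [← hs] at hd ⊢
    have h1 : 1 / (10 * s) ≤ 1 := by
      rw [div_le_one (by linarith)]; linarith
    have h2 : (d : ℝ) ≤ s * (2 * m + 1) := by
      have h3 : (0 : ℝ) ≤ d := Nat.cast_nonneg d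
      linarith
    have := h2.trans (Nat.le_ceil _)
    exact_mod_cast this
  have k2 : ∀ d, PL d → EmpAt r m d := by
    intro d hd
    rw [hPL] at hd
    beta_reduce at hd
    refine empAt28 hr1 hr2 (by linarith) ?_
    rw [← hs] at hd ⊢
    have e : s * (1 / (10 * s)) = 1 / 10 := by field_simp
    have h1 := mul_lt_mul_of_pos_left hd hs0
    have e2 : s * (s * (2 * (m : ℝ) + 1)) = r * (2 * m + 1) := by rw [← mul_assoc, hss]
    rw [e2] at h1
    have e3 : s * (2 * (d : ℝ) + 3 + (1 - 1 / (10 * s))) =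
        2 * (s * (d + 3 / 2)) + s - s * (1 / (10 * s)) := by ring
    rw [e3, e] at h1
    linarith
  have k3 : ∀ d, PH d → IndAt r m d := by
    intro d hd
    rw [hPH] at hd
    beta_reduce at hd
    refine indAt_win (by omega) ?_
    rw [← hs] at hd ⊢
    have e : s * (1 / (4 * s)) = 1 / 4 := by field_simp
    have h1 := mul_lt_mul_of_pos_left hd hs0
    have e3 : s * (s * (2 * (m : ℝ) + 1) + (2 / 3 + 1 / (4 * s))) =
        r * (2 * m + 1) + 2 / 3 * s + s * (1 / (4 * s)) := by rw [← hss]; ring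
    rw [e3, e] at h1
    linarith
  obtain ⟨F, hF, hF'⟩ := coll_wrap (r := r) (m := m) (by omega) k1 k2 k3 L
  refine ⟨F, hF, fun c a hc d hd => hF' c a hc d ?_⟩
  rw [hPL, hPH]
  exact hd

/-- the windows of the starting library -/
theorem good_every {r : ℕ} (hr : 10 ≤ r) :
    Good.{u} r (min (√(r : ℝ) - 3) (2 / 3 + 9 / (4 * √(r : ℝ))))
      (min (√(r : ℝ) - 3) (2 / 3 + 1 / (4 * √(r : ℝ)))) := by
  intro m L _ _
  obtain ⟨F, hF, hF'⟩ := coll_every hr m L
  refine ⟨F, hF, fun c a hc d hd => hF' c a hc d ?_⟩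
  rcases hd with hd | hd
  · rcases min_choice (√(r : ℝ) - 3) (2 / 3 + 9 / (4 * √(r : ℝ))) with h | h
    · rw [h] at hd
      left
      linarith
    · rw [h] at hd
      right; right; left
      exact hd
  · rcases min_choice (√(r : ℝ) - 3) (2 / 3 + 1 / (4 * √(r : ℝ))) with h | h
    · rw [h] at hd
      right; left
      linarith
    · rw [h] at hd
      right; right; right
      exact hd

/-- the ten exceptional numbers of points -/
def Exc (r : ℕ) : Prop := (17 ≤ r ∧ r ≤ 24) ∨ r = 26 ∨ r = 27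

instance (r : ℕ) : Decidable (Exc r) := by unfold Exc; infer_instance

theorem exists_good {r : ℕ} (hr : 10 ≤ r) : ∃ lo hi : ℝ, Good.{u} r lo hi ∧ 0 ≤ lo ∧ 0 ≤ hi ∧
    lo + hi < 2 ∧ (¬ Exc r → lo < 1 ∧ hi < 1) := by
  have hrR : (10 : ℝ) ≤ r := by exact_mod_cast hr
  have hs3 : 3 < √(r : ℝ) := by
    rw [Real.lt_sqrt (by norm_num)]
    linarith
  by_cases hsq : IsSquare r
  · refine ⟨0, 0, fun m L _ _ => ?_, le_rfl, le_rfl, by norm_num, fun _ => by norm_num⟩
    obtain ⟨F, hF, hF'⟩ := coll_start (m := m) hr (Or.inr hsq) L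
    exact ⟨F, hF, fun c a hc d _ => hF' c a hc d⟩
  rcases Nat.lt_or_ge r 46 with h46 | h46
  · rcases Nat.lt_or_ge r 28 with h28 | h28
    · refine ⟨_, _, good_every hr, ?_, ?_, ?_, ?_⟩
      · exact le_min (by linarith) (by positivity)
      · exact le_min (by linarith) (by positivity)
      · rcases le_or_gt r 15 with h | h
        · have h1 : √(r : ℝ) < 4 := by
            rw [Real.sqrt_lt' (by norm_num)]
            have : (r : ℝ) ≤ 15 := by exact_mod_cast h
            linarith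
          have h2 := min_le_left (√(r : ℝ) - 3) (2 / 3 + 9 / (4 * √(r : ℝ)))
          have h3 := min_le_left (√(r : ℝ) - 3) (2 / 3 + 1 / (4 * √(r : ℝ)))
          linarith
        · have h1 : 4 ≤ √(r : ℝ) := by
            apply Real.le_sqrt_of_sq_le
            have : (16 : ℝ) ≤ r := by exact_mod_cast h
            linarith
          have h2 := min_le_right (√(r : ℝ) - 3) (2 / 3 + 9 / (4 * √(r : ℝ)))
          have h3 := min_le_right (√(r : ℝ) - 3) (2 / 3 + 1 / (4 * √(r : ℝ)))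
          have h4 : 9 / (4 * √(r : ℝ)) ≤ 9 / 16 := by
            apply div_le_div_of_nonneg_left (by norm_num) (by norm_num); linarith
          have h5 : 1 / (4 * √(r : ℝ)) ≤ 1 / 16 := by
            apply div_le_div_of_nonneg_left (by norm_num) (by norm_num); linarith
          linarith
      · intro hE
        have h16 : r ≤ 16 := by
          by_contra hcon
          apply hE
          unfold Exc
          by_cases h25 : r = 25
          · exact absurd ⟨5, h25⟩ hsq
          · omega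
        have h15 : r ≤ 15 := by
          by_cases h : r = 16
          · exact absurd ⟨4, h⟩ hsq
          · omega
        have h1 : √(r : ℝ) < 4 := by
          rw [Real.sqrt_lt' (by norm_num)]
          have : (r : ℝ) ≤ 15 := by exact_mod_cast h15
          linarith
        exact ⟨lt_of_le_of_lt (min_le_left _ _) (by linarith),
          lt_of_le_of_lt (min_le_left _ _) (by linarith)⟩
    · have hs5 : 5 ≤ √(r : ℝ) := by
        apply Real.le_sqrt_of_sq_le
        have : (28 : ℝ) ≤ r := by exact_mod_cast h28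
        linarith
      have h1 : 0 < 1 / (10 * √(r : ℝ)) := by positivity
      have h2 : 1 / (10 * √(r : ℝ)) ≤ 1 / 50 := by
        apply div_le_div_of_nonneg_left (by norm_num) (by norm_num); linarith
      have h3 : 1 / (4 * √(r : ℝ)) ≤ 1 / 20 := by
        apply div_le_div_of_nonneg_left (by norm_num) (by norm_num); linarith
      have h4 : 0 < 1 / (4 * √(r : ℝ)) := by positivity
      exact ⟨_, _, good28 h28 (by omega), by linarith, by linarith, by linarith,
        fun _ => ⟨by linarith, by linarith⟩⟩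
  · have hs6 : 6.78 ≤ √(r : ℝ) := by
      apply Real.le_sqrt_of_sq_le
      have : (46 : ℝ) ≤ r := by exact_mod_cast h46
      norm_num
      linarith
    have h4 : 9 / (4 * √(r : ℝ)) ≤ 9 / (4 * 6.78) := by
      apply div_le_div_of_nonneg_left (by norm_num) (by norm_num); linarith
    have h5 : 1 / (4 * √(r : ℝ)) ≤ 1 / (4 * 6.78) := by
      apply div_le_div_of_nonneg_left (by norm_num) (by norm_num); linarith
    have h6 : (9 : ℝ) / (4 * 6.78) < 1 / 3 := by norm_num
    have h7 : (1 : ℝ) / (4 * 6.78) < 1 / 3 := by norm_num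
    have h2 := min_le_right (√(r : ℝ) - 3) (2 / 3 + 9 / (4 * √(r : ℝ)))
    have h3 := min_le_right (√(r : ℝ) - 3) (2 / 3 + 1 / (4 * √(r : ℝ)))
    exact ⟨_, _, good_every hr, le_min (by linarith) (by positivity),
      le_min (by linarith) (by positivity), by linarith, fun _ => ⟨by linarith, by linarith⟩⟩

end Pool.Agent.K7.H55.AN
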